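import Pool.Agent.Lib.MP_c7af3c_ag.T2C.H8.StabC
import Pool.Agent.Lib.MP_c7af3c_ag.T2C.H11.Hall
import Pool.Agent.Lib.MP_c7af3c_ag.T2.H95.Der

/-!
# MP_c7af3c_ag, project T2C: the ending of the plane type for tuples (helper8)

`iso_move`: let `W` be a frame of a plane, `q` a conic, `N` a space of tuples on the plane which
contains `q S` and is stable under all derivations of the field (for example: `N` is spanned by
tuples with integral coefficients), `F|W` in `N`, `B` a space of vector fields on the plane which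
preserve `N`, and `dim N + 2 <= dim q S + dim B`.  Then every derivation which kills the
coefficients of `F` moves the frame by an element of `B`.
`iso_point`: if moreover the elements of `B` fix the direction of the first vector `W 0` of the
frame and `x` is a multiple of `W 0` with a coordinate `1`, then `x` is over `k`.
`dT_mem_of_span`: a space of tuples spanned by tuples with integral coefficients is stable under
all derivations.
-/

set_option autoImplicit false

namespace Pool.Agent.T2C.H8

open MvPolynomial Pool.Agent.Gen Pool.Agent.Sharp Pool.Agent.Edge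
open Pool.Agent.Sharp.H75 (dco DG af lf Tup Hom afT)
open Pool.Agent.Edge.H65 (ssub)
open Pool.Agent.T2 (S3 mulS mem_mulS)
open Pool.Agent.T2C.H11 (mulST mem_mulST finrank_piS)

variable {K : Type} [Field K] {n c : ℕ} {d : Fin c → ℕ}

theorem mem_ST {g : T3 K c} : g ∈ H11.ST K d ↔ HomC d g := by
  simp [H11.ST, HomC, Submodule.mem_pi, mem_homogeneousSubmodule]

theorem mulC_eq {q : MvPolynomial (Fin 3) K} {a : Fin c → ℕ} (ha : ∀ m, 2 + a m = d m) :
    mulC q a = mulST q d 2 := by
  ext g
  rw [mem_mulC, mem_mulST]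
  have h : ∀ m, d m - 2 = a m := fun m => by rw [← ha m]; omega
  constructor
  · rintro ⟨b, hb, rfl⟩ m
    rw [h m]
    exact mem_mulS.2 ⟨b m, hb m, rfl⟩
  · intro hg
    choose b hb hb2 using fun m => mem_mulS.1 (hg m)
    exact ⟨b, fun m => h m ▸ hb m, funext fun m => hb2 m⟩

theorem finrank_mulC {q : MvPolynomial (Fin 3) K} (hq0 : q ≠ 0) {a : Fin c → ℕ}
    (ha : ∀ m, 2 + a m = d m) :
    Module.finrank K (mulC q a) = ∑ m, (a m + 2).choose 2 := by
  have fm : ∀ m, FiniteDimensional K (mulS q (d m - 2)) := fun m => inferInstance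
  rw [mulC_eq ha, mulST, finrank_piS]
  refine Finset.sum_congr rfl fun m _ => ?_
  rw [T2.H60.finrank_mulS hq0, ← ha m, Nat.add_sub_cancel_left]

theorem finrank_ST (e : Fin c → ℕ) :
    Module.finrank K (H11.ST K e) = ∑ m, (e m + 2).choose 2 := by
  have fm : ∀ m, FiniteDimensional K (S3 K (e m)) := fun m => H65.finite_hom3 K (e m)
  rw [H11.ST, finrank_piS]
  exact Finset.sum_congr rfl fun m _ => H65.finrank_hom3 K (e m)

/-- `dim (S / q S) = 3 c + 10` -/
theorem finrank_ST_eq {q : MvPolynomial (Fin 3) K} (hq0 : q ≠ 0) {a : Fin c → ℕ}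
    (ha : ∀ m, 2 + a m = d m) (hn : n = c + 3) (hs : ∑ m, d m = n + 2) :
    Module.finrank K (H11.ST K d) = Module.finrank K (mulC q a) + (3 * c + 10) := by
  rw [finrank_mulC hq0 ha, finrank_ST]
  have h2 : ∑ m, (2 * d m + 1) = 2 * ∑ m, d m + c := by
    rw [Finset.sum_add_distrib, ← Finset.mul_sum]
    simp
  have h3 : ∑ m, (d m + 2).choose 2 = ∑ m, (a m + 2).choose 2 + ∑ m, (2 * d m + 1) := by
    rw [← Finset.sum_add_distrib]
    refine Finset.sum_congr rfl fun m _ => ?_
    rw [← ha m, choose_diff]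
  rw [h3, h2, hs]
  omega

/-- restriction to a plane is onto -/
theorem ssub_surj {W : Fin 3 → Fin (n + 1) → K} (hW : LinearIndependent K W) :
    ∃ A : Fin 3 → Fin (n + 1) → K, ∀ i j, ∑ p, A j p * W i p = if i = j then 1 else 0 := by
  have h1 : LinearMap.ker (Fintype.linearCombination K W) = ⊥ := by
    rw [LinearMap.ker_eq_bot']
    intro v hv
    exact funext fun i => Fintype.linearIndependent_iff.1 hW v hv i
  obtain ⟨g, hg⟩ := (Fintype.linearCombination K W).exists_leftInverse_of_injective h1
  refine ⟨fun j p => g (Pi.single p 1) j, fun i j => ?_⟩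
  have h2 : g (W i) = Pi.single i 1 := by
    have h3 := LinearMap.congr_fun hg (Pi.single i 1)
    rw [LinearMap.comp_apply, Fintype.linearCombination_apply_single, one_smul] at h3
    exact h3
  have h4 : W i = ∑ p, W i p • (Pi.single p 1 : Fin (n + 1) → K) := by
    funext r
    rw [Finset.sum_apply, Finset.sum_eq_single r]
    · rw [Pi.smul_apply, Pi.single_eq_same, smul_eq_mul, mul_one]
    · intro b _ hb
      rw [Pi.smul_apply, Pi.single_eq_of_ne (Ne.symm hb), smul_zero]
    · intro h; exact absurd (Finset.mem_univ _) h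
  rw [h4, map_sum] at h2
  have h5 := congrFun h2 j
  rw [Finset.sum_apply, Pi.single_apply] at h5
  simp only [map_smul, Pi.smul_apply, smul_eq_mul] at h5
  rw [if_congr (eq_comm (a := j)) rfl rfl] at h5
  rw [← h5]
  exact Finset.sum_congr rfl fun p _ => mul_comm _ _

/-- every tuple on the plane is a restriction -/
theorem exists_rs {W : Fin 3 → Fin (n + 1) → K} (hW : LinearIndependent K W) {g : T3 K c}
    (hg : HomC d g) : ∃ G : Tup K n c, Hom d G ∧ rs W G = g := by
  obtain ⟨A, hA⟩ := ssub_surj hW
  refine ⟨fun m => aeval (fun j => ∑ p, C (A j p) * X p) (g m), fun m => ?_, ?_⟩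
  · have h := (hg m).aeval (fun j => ∑ p, C (A j p) * X p : Fin 3 → MvPolynomial (Fin (n + 1)) K)
      (n := 1) (fun j => IsHomogeneous.sum _ _ _ fun p _ => by
        have := (isHomogeneous_C (Fin (n + 1)) (A j p)).mul (isHomogeneous_X K p)
        rwa [zero_add] at this)
    rwa [one_mul] at h
  · funext m
    rw [rs_apply]
    have h1 : ssub W (aeval (fun j => ∑ p, C (A j p) * X p) (g m)) =
        aeval (fun j => ssub W (∑ p, C (A j p) * X p)) (g m) := by
      rw [← AlgHom.comp_apply, comp_aeval]
    rw [h1]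
    have h2 : (fun j => ssub W (∑ p, C (A j p) * X p)) = X := by
      funext j
      rw [map_sum]
      have h3 : ∀ p, ssub W (C (A j p) * X p) = ∑ i, C (A j p * W i p) * X i := by
        intro p
        rw [map_mul, H65.ssub_C, H65.ssub_X, Finset.mul_sum]
        exact Finset.sum_congr rfl fun i _ => by rw [map_mul, mul_assoc]
      simp only [h3]
      rw [Finset.sum_comm, Finset.sum_eq_single j]
      · rw [← Finset.sum_mul, ← map_sum, hA, if_pos rfl, C_1, one_mul]
      · intro i _ hi
        rw [← Finset.sum_mul, ← map_sum, hA, if_neg hi, C_0, zero_mul]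
      · intro h; exact absurd (Finset.mem_univ _) h
    rw [h2]
    exact aeval_X_left_apply _

/-- every derivation over the field of the coefficients moves the frame by an element of `B` -/
theorem iso_move (D : DSys K n c d) {a : Fin c → ℕ} (ha : ∀ m, 2 + a m = d m)
    (hn : n = c + 3) (hs : ∑ m, d m = n + 2) {W : Fin 3 → Fin (n + 1) → K}
    (hW : LinearIndependent K W) {q : MvPolynomial (Fin 3) K}
    (hq0 : q ≠ 0) (N : Submodule K (T3 K c)) (hN : ∀ g ∈ N, HomC d g)
    (hδ : ∀ (δ : Derivation ℤ K K), ∀ g ∈ N, dT δ g ∈ N)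
    (hf : rs W D.F ∈ N) (B : Submodule K (Fin 3 → Fin 3 → K))
    (hB : ∀ L ∈ B, (fun m => af L (rs W D.F m)) ∈ N)
    (hdim : Module.finrank K N + 2 ≤ Module.finrank K (mulC q a) + Module.finrank K B)
    (δ : Derivation ℤ K K) (hδF : ∀ m I, δ (coeff I (D.F m)) = 0) :
    ∃ L ∈ B, ∀ i f, δ (W i f) = ∑ j, L j i * W j f := by
  have hNT : N ≤ H11.ST K d := fun g hg => mem_ST.2 (hN g hg)
  have hd : ∀ m, 1 ≤ d m := fun m => by have := ha m; omega
  have fN : FiniteDimensional K N := Submodule.finiteDimensional_of_le hNT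
  -- the motions generate everything modulo `N`
  have h1 : H11.ST K d ≤ LinearMap.range (phiC D W) ⊔ N := by
    intro g hg
    obtain ⟨G, hG, hGg⟩ := exists_rs hW (mem_ST.1 hg)
    have h2 := dT_rsF (D := D) (P := W) hG
    have h3 : g = phiC D W (-fun i f => DG D G (W i f)) + dT (DG D G) (rs W D.F) := by
      rw [h2, hGg, map_neg]
      abel
    rw [h3]
    exact Submodule.add_mem_sup ⟨_, rfl⟩ (hδ _ _ hf)
  have h2 : LinearMap.range (phiC D W) ≤ H11.ST K d := by
    rintro _ ⟨e, rfl⟩
    exact mem_ST.2 (phiC_hom D hd W e)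
  have h3 : LinearMap.range (phiC D W) ⊔ N = H11.ST K d := le_antisymm (sup_le h2 hNT) h1
  -- the dimension of the motions into `N`
  have f0 : FiniteDimensional K (LinearMap.range (phiC D W)) := inferInstance
  have h4 := Submodule.finrank_sup_add_finrank_inf_eq (LinearMap.range (phiC D W)) N
  rw [h3, finrank_ST_eq hq0 ha hn hs] at h4
  let κ : Submodule K (Fin 3 → Fin (n + 1) → K) := N.comap (phiC D W)
  have h5 : Module.finrank K κ = Module.finrank K (LinearMap.ker (phiC D W)) +
      Module.finrank K (LinearMap.range (phiC D W) ⊓ N : Submodule K (T3 K c)) := by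
    let ψ : κ →ₗ[K] T3 K c := (phiC D W).comp κ.subtype
    have h6 := LinearMap.finrank_range_add_finrank_ker ψ
    have h7 : LinearMap.range ψ = LinearMap.range (phiC D W) ⊓ N := by
      ext g
      constructor
      · rintro ⟨e, rfl⟩
        exact ⟨⟨e.1, rfl⟩, e.2⟩
      · rintro ⟨⟨e, rfl⟩, he⟩
        exact ⟨⟨e, he⟩, rfl⟩
    have h8 : Module.finrank K (LinearMap.ker ψ) =
        Module.finrank K (LinearMap.ker (phiC D W)) := by
      have hle : LinearMap.ker (phiC D W) ≤ κ := fun e he => by
        change phiC D W e ∈ N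
        rw [LinearMap.mem_ker.1 he]
        exact N.zero_mem
      have h9 : (LinearMap.ker ψ).map κ.subtype = LinearMap.ker (phiC D W) := by
        ext e
        constructor
        · rintro ⟨e', he', rfl⟩
          exact he'
        · intro he
          exact ⟨⟨e, hle he⟩, he, rfl⟩
      rw [← h9]
      exact LinearEquiv.finrank_eq (Submodule.equivMapOfInjective _ κ.injective_subtype _)
    rw [h7, h8] at h6
    omega
  have h6 := LinearMap.finrank_range_add_finrank_ker (phiC D W)
  have h15 : Module.finrank K (Fin 3 → Fin (n + 1) → K) = 3 * (n + 1) := by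
    rw [Module.finrank_pi_fintype]
    simp
  rw [h15] at h6
  have h7 : Module.finrank K κ ≤ Module.finrank K B := by omega
  -- the motions by `B`
  let μ : (Fin 3 → Fin 3 → K) →ₗ[K] (Fin 3 → Fin (n + 1) → K) :=
    { toFun := fun L i f => ∑ j, L j i * W j f
      map_add' := fun L L' => by
        funext i f
        simp only [Pi.add_apply, add_mul, Finset.sum_add_distrib]
      map_smul' := fun r L => by
        funext i f
        simp only [Pi.smul_apply, smul_eq_mul, RingHom.id_apply, Finset.mul_sum, mul_assoc] }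
  have hμ : Function.Injective μ := by
    rw [← LinearMap.ker_eq_bot, LinearMap.ker_eq_bot']
    intro L hL
    have h8 : ∀ i, ∑ j, L j i • W j = 0 := by
      intro i
      funext f
      have := congrFun (congrFun hL i) f
      rw [Finset.sum_apply]
      exact this
    funext j i
    exact Fintype.linearIndependent_iff.1 hW (fun j => L j i) (h8 i) j
  have h8 : B.map μ ≤ κ := by
    rintro _ ⟨L, hL, rfl⟩
    change phiC D W (μ L) ∈ N
    have h9 : phiC D W (μ L) = fun m => af L (rs W D.F m) := by
      funext m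
      rw [af_rs]
      rfl
    rw [h9]
    exact hB L hL
  have h9 : B.map μ = κ := by
    refine Submodule.eq_of_le_of_finrank_le h8 ?_
    rw [← LinearEquiv.finrank_eq (Submodule.equivMapOfInjective μ hμ B)]
    exact h7
  have h10 : (fun i f => δ (W i f)) ∈ κ := by
    change phiC D W (fun i f => δ (W i f)) ∈ N
    rw [← dT_rsF_const hδF]
    exact hδ δ _ hf
  rw [← h9] at h10
  obtain ⟨L, hL, hL2⟩ := h10
  exact ⟨L, hL, fun i f => (congrFun (congrFun hL2 i) f).symm⟩

/-- a subspace spanned by tuples which are killed by all derivations, plus `q S` with `q` killed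
by all derivations, is stable under all derivations -/
theorem dT_mem_of_span {N : Submodule K (T3 K c)} {s : Set (T3 K c)}
    (hN : N = Submodule.span K s) (hs : ∀ (δ : Derivation ℤ K K), ∀ g ∈ s, dT δ g ∈ N)
    (δ : Derivation ℤ K K) : ∀ g ∈ N, dT δ g ∈ N := by
  intro g hg
  have h : g ∈ Submodule.span K s := hN ▸ hg
  refine Submodule.span_induction ?_ ?_ ?_ ?_ h
  · intro g hg
    exact hs δ g hg
  · have h0 : dT δ (0 : T3 K c) = 0 := by
      funext m
      rw [dT_apply, Pi.zero_apply]
      ext I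
      rw [H75.coeff_dco, coeff_zero, map_zero]
    rw [h0]
    exact N.zero_mem
  · intro g g' _ _ hg hg'
    have h0 : dT δ (g + g') = dT δ g + dT δ g' := by
      funext m
      rw [dT_apply, Pi.add_apply, Pi.add_apply, H75.dco_add]
      rfl
    rw [h0]
    exact N.add_mem hg hg'
  · intro r g hg1 hg2
    have h0 : dT δ (r • g) = δ r • g + r • dT δ g := by
      funext m
      rw [dT_apply, Pi.add_apply, Pi.smul_apply, Pi.smul_apply, Pi.smul_apply, dT_apply]
      ext I
      rw [H75.coeff_dco, coeff_add, coeff_smul, coeff_smul, coeff_smul, H75.coeff_dco,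
        smul_eq_mul, smul_eq_mul, smul_eq_mul, Derivation.leibniz]
      simp only [smul_eq_mul]
      ring
    rw [h0]
    exact N.add_mem (N.smul_mem _ (hN ▸ hg1)) (N.smul_mem _ hg2)

/-- a derivation kills the polynomials with integral coefficients -/
theorem dco_int (δ : Derivation ℤ K K) (G : MvPolynomial (Fin 3) ℤ) :
    dco δ (MvPolynomial.map (Int.castRingHom K) G) = 0 := by
  ext I
  rw [H75.coeff_dco, coeff_map, coeff_zero]
  have h := δ.map_algebraMap (coeff I G)
  rwa [eq_intCast] at h ⊢

/-- the span of `q S`, `q` integral, and of finitely many integral tuples is stable -/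
theorem dT_mem_int {a : Fin c → ℕ} (q0 : MvPolynomial (Fin 3) ℤ)
    (s : Set (Fin c → MvPolynomial (Fin 3) ℤ)) (δ : Derivation ℤ K K) :
    ∀ g ∈ mulC (MvPolynomial.map (Int.castRingHom K) q0) a ⊔
        Submodule.span K ((fun (g : Fin c → MvPolynomial (Fin 3) ℤ) (m : Fin c) =>
          MvPolynomial.map (Int.castRingHom K) (g m)) '' s),
      dT δ g ∈ mulC (MvPolynomial.map (Int.castRingHom K) q0) a ⊔
        Submodule.span K ((fun (g : Fin c → MvPolynomial (Fin 3) ℤ) (m : Fin c) =>
          MvPolynomial.map (Int.castRingHom K) (g m)) '' s) := by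
  refine dT_mem_of_span (s := (mulC (MvPolynomial.map (Int.castRingHom K) q0) a : Set (T3 K c)) ∪
    ((fun (g : Fin c → MvPolynomial (Fin 3) ℤ) (m : Fin c) =>
          MvPolynomial.map (Int.castRingHom K) (g m)) '' s)) ?_ ?_ δ
  · rw [Submodule.span_union, Submodule.span_eq]
  · rintro δ g (hg | ⟨g, _, rfl⟩)
    · obtain ⟨b, hb, rfl⟩ := mem_mulC.1 hg
      refine Submodule.mem_sup_left (mem_mulC.2 ⟨dT δ b, dT_hom δ hb, ?_⟩)
      funext m
      rw [sm_apply, dT_apply, dT_apply, sm_apply, H75.dco_mul, dco_int, zero_mul, zero_add]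
    · have h0 : dT δ (fun m => MvPolynomial.map (Int.castRingHom K) (g m)) = 0 := by
        funext m
        rw [dT_apply, dco_int]
        rfl
      rw [h0]
      exact Submodule.zero_mem _

/-- The point is over `k`. -/
theorem iso_point [CharZero K] (k : Subfield K)
    (hk : ∀ (z : K) (p : Polynomial K), p ≠ 0 → (∀ i, p.coeff i ∈ k) → p.eval z = 0 → z ∈ k)
    (D : DSys K n c d) (hkF : ∀ m I, coeff I (D.F m) ∈ k) {a : Fin c → ℕ}
    (ha : ∀ m, 2 + a m = d m)
    (hn : n = c + 3) (hs : ∑ m, d m = n + 2) {W : Fin 3 → Fin (n + 1) → K}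
    (hW : LinearIndependent K W) {q : MvPolynomial (Fin 3) K}
    (hq0 : q ≠ 0) (N : Submodule K (T3 K c)) (hN : ∀ g ∈ N, HomC d g)
    (hδ : ∀ (δ : Derivation ℤ K K), ∀ g ∈ N, dT δ g ∈ N)
    (hf : rs W D.F ∈ N) (B : Submodule K (Fin 3 → Fin 3 → K))
    (hB : ∀ L ∈ B, (fun m => af L (rs W D.F m)) ∈ N)
    (hdim : Module.finrank K N + 2 ≤ Module.finrank K (mulC q a) + Module.finrank K B)
    (hB0 : ∀ L ∈ B, L 1 0 = 0 ∧ L 2 0 = 0)
    {x : Fin (n + 1) → K} {r : K} (hx : ∀ f, x f = r * W 0 f) {p : Fin (n + 1)}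
    (hp : x p = 1) : ∀ i, x i ∈ k := by
  intro i0
  refine T2.H95.mem_of_der k ?_ (x i0) fun δ hδk => ?_
  · intro y hy
    obtain ⟨p, hp0, hp⟩ := hy
    refine hk y (p.map (algebraMap k K)) ?_ ?_ ?_
    · exact (Polynomial.map_ne_zero_iff (algebraMap k K).injective).2 hp0
    · intro i
      rw [Polynomial.coeff_map]
      exact (p.coeff i).2
    · rwa [Polynomial.eval_map_algebraMap]
  · obtain ⟨L, hL, h1⟩ := iso_move D ha hn hs hW hq0 N hN hδ hf B hB hdim δ
      fun m I => hδk _ (hkF m I)
    obtain ⟨h2, h3⟩ := hB0 L hL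
    have h4 : ∀ f, δ (W 0 f) = L 0 0 * W 0 f := by
      intro f
      rw [h1 0 f, Fin.sum_univ_three, h2, h3, zero_mul, zero_mul, add_zero, add_zero]
    have h5 : ∀ f, δ (x f) = (δ r + r * L 0 0) * W 0 f := by
      intro f
      rw [hx f, Derivation.leibniz, h4 f]
      simp only [smul_eq_mul]
      ring
    have h6 : W 0 p ≠ 0 := by
      intro h
      rw [hx p, h, mul_zero] at hp
      exact zero_ne_one hp
    have h7 := h5 p
    rw [hp, Derivation.map_one_eq_zero] at h7
    have h8 : δ r + r * L 0 0 = 0 := (mul_eq_zero.1 h7.symm).resolve_right h6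
    rw [h5 i0, h8, zero_mul]

end Pool.Agent.T2C.H8
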