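import Pool.Agent.Lib.MP_c7af3c_ag.T2C.IfaceB
import Pool.Agent.Lib.MP_c7af3c_ag.T2C.H8.Iso

/-!
# MP_c7af3c_ag, project T2C: rows QINT, QEQ, STAB of T2C/IfaceB.lean (helper8)
-/

set_option autoImplicit false

namespace Pool.Agent.T2C.H8

open MvPolynomial Pool.Agent.Gen Pool.Agent.Sharp Pool.Agent.Edge Pool.Agent.T2C
open Pool.Agent.Sharp.H75 (dco DG af lf Tup Hom afT)
open Pool.Agent.Edge.H65 (ssub)

section qint

variable {K : Type} [Field K] {n c : ℕ} {d : Fin c → ℕ}

/-- the value of `delta g` at a point which is not moved -/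
theorem eval_dco_fix {N : ℕ} {δ : Derivation ℤ K K} {y : Fin N → K} (hy : ∀ i, δ (y i) = 0)
    (g : MvPolynomial (Fin N) K) : eval y (dco δ g) = δ (eval y g) := by
  induction g using MvPolynomial.induction_on with
  | C a => rw [H75.dco_C, eval_C, eval_C]
  | add F G hF hG => rw [H75.dco_add, map_add, map_add, map_add, hF, hG]
  | mul_X F p hF =>
    rw [H75.dco_mul, H75.dco_X, mul_zero, add_zero, map_mul, map_mul, eval_X, hF,
      Derivation.leibniz, hy, smul_zero, zero_add, smul_eq_mul, mul_comm]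

theorem two_add (hT : Ty n c d) (m : Fin c) : 2 + (d m - 2) = d m := by
  have := hT.two m
  omega

/-- the conic passes through the point -/
theorem eval_q (hc : 1 ≤ c) {y : Fin 3 → K} {R : Submodule K (T3 K c)}
    (hR : RT d y R) {q : MvPolynomial (Fin 3) K}
    (hq : mulC q (fun m => d m - 2) ≤ R) : eval y q = 0 := by
  have h1 : sm q (fun m => X 0 ^ (d m - 2)) ∈ R := by
    refine hq (sm_mem fun m => ?_)
    have := (isHomogeneous_X K (0 : Fin 3)).pow (d m - 2)
    rwa [one_mul] at this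
  have h2 := hR.van _ h1 ⟨0, hc⟩
  rw [sm_apply, map_mul, map_pow, eval_X, hR.y0, one_pow, mul_one] at h2
  exact h2

end qint

/-- Row QINT. -/
theorem qint : QintStatement := by
  intro hU hB hC K _ _ _ n c d D x t P hT hc h hR q hq hq0 hqR hok G hG hGq
  have ha := two_add hT
  rcases hok with hc3 | ⟨hc4, m0, hm0, hqm⟩
  · refine qint_of h.plC ha hq hqR ?_ ?_ hG hGq
    · intro q' hq' hq'R
      exact hU K n c d _ _ hT (by omega) hR q q' hq hq' hq0 hqR hq'R
    · refine fun A hA => hB hU K n c d _ _ hT hc hc3 hR q hq hq0 hqR (beta D t q) ?_ ?_ A hA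
      · intro A hA
        refine ⟨H75.dco_hom _ hq, ?_⟩
        have hqA : HomC d (sm q A) := fun m => by
          have := hq.mul (hA m)
          rw [ha m] at this
          exact this
        have hF : Fix D x P (lift t (sm q A)) :=
          (fix_iff h.plC (lift_hom hqA)).2 (by rw [rs_lift h.Pt]; exact hqR (sm_mem hA))
        change eval (fun i => x (t i)) (dco (DG D (lift t (sm q A))) q) = 0
        rw [eval_dco_fix fun i => hF.1 (t i), eval_q hc hR hqR, map_zero]
      · intro A hA A' hA'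
        exact beta_bracket h.plC ha hq hqR hA hA'
  · -- the conic is the restriction of a quadric
    have hF : Fix D x P G := (fix_iff h.plC hG).2 (hqR hGq)
    obtain ⟨b, hb, hbG⟩ := mem_mulC.1 hGq
    have h1 : dco (DG D G) q = q * b m0 := by
      have h2 := congrFun (rs_dT hF D.F) m0
      rw [dT_F hG] at h2
      rw [hqm]
      change _ = fP D P m0 * b m0
      rw [← hqm]
      have h3 := congrFun hbG m0
      rw [sm_apply] at h3
      rw [h3, h2, hqm]
      rfl
    have h4 : (b m0).IsHomogeneous 0 := by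
      have h5 : (b m0).IsHomogeneous (d m0 - 2) := hb m0
      rw [hm0] at h5
      exact h5
    refine ⟨coeff 0 (b m0), ?_⟩
    rw [h1, mul_comm]
    congr 1
    exact totalDegree_eq_zero_iff_eq_C.1 ((totalDegree_zero_iff_isHomogeneous _).2 h4)

section qeq

variable {K : Type} [Field K] {n c : ℕ} {d : Fin c → ℕ} {D : DSys K n c d}
  {x : Fin (n + 1) → K} {t : Fin 3 → Fin (n + 1)} {P : Fin 3 → Fin (n + 1) → K}

/-- the point and the frame move canonically -/
theorem pcanC_of [CharZero K] (hC : PcanStatement) (hT : Ty n c d) (h : Pl D x t P) :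
    PcanC D x t P := fun E => (hC K n c d D x t P hT h).1 E

theorem dco_finsum {σ ι : Type} (δ : Derivation ℤ K K) (s : Finset ι)
    (F : ι → MvPolynomial σ K) : dco δ (∑ i ∈ s, F i) = ∑ i ∈ s, dco δ (F i) :=
  H75.dco_sum δ s F

theorem bmul_apply {σ : Type} (B : Fin c → Fin c → MvPolynomial σ K)
    (f : Fin c → MvPolynomial σ K) (m : Fin c) : bmul B f m = ∑ m', B m m' * f m' := rfl

/-- the derivation of a product `B f` -/
theorem dT_bmul {σ : Type} (δ : Derivation ℤ K K) (B : Fin c → Fin c → MvPolynomial σ K)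
    (f : Fin c → MvPolynomial σ K) :
    dT δ (bmul B f) = bmul (fun m m' => dco δ (B m m')) f + bmul B (dT δ f) := by
  funext m
  rw [dT_apply, bmul_apply, dco_finsum, Pi.add_apply, bmul_apply, bmul_apply,
    ← Finset.sum_add_distrib]
  exact Finset.sum_congr rfl fun m' _ => by rw [H75.dco_mul, dT_apply]

theorem mem_BF {σ : Type} {B : Fin c → Fin c → MvPolynomial σ K} :
    B ∈ BF K σ d ↔ ∀ m m', (d m' ≤ d m → (B m m').IsHomogeneous (d m - d m')) ∧
      (d m < d m' → B m m' = 0) := Iff.rfl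

theorem dco_BF {σ : Type} (δ : Derivation ℤ K K) {B : Fin c → Fin c → MvPolynomial σ K}
    (hB : B ∈ BF K σ d) : (fun m m' => dco δ (B m m')) ∈ BF K σ d := by
  intro m m'
  refine ⟨fun h => H75.dco_hom δ ((hB m m').1 h), fun h => ?_⟩
  change dco δ (B m m') = 0
  rw [(hB m m').2 h, H75.dco_zero]

/-- the degrees of `B f`, where `f m` has degree `r m`, `r m + j = d m` -/
theorem bmul_hom {σ : Type} {B : Fin c → Fin c → MvPolynomial σ K} (hB : B ∈ BF K σ d)
    {r : Fin c → ℕ} {j : ℕ} (hr : ∀ m, r m + j = d m) {f : Fin c → MvPolynomial σ K}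
    (hf : ∀ m, (f m).IsHomogeneous (r m)) : ∀ m, (bmul B f m).IsHomogeneous (r m) := by
  intro m
  rw [bmul_apply]
  refine IsHomogeneous.sum _ _ _ fun m' _ => ?_
  by_cases h : d m' ≤ d m
  · have h1 := ((hB m m').1 h).mul (hf m')
    have h2 : d m - d m' + r m' = r m := by
      have := hr m
      have := hr m'
      omega
    rwa [h2] at h1
  · rw [(hB m m').2 (not_le.1 h), zero_mul]
    exact isHomogeneous_zero _ _ _

theorem rs_bmul (B : Fin c → Fin c → MvPolynomial (Fin (n + 1)) K) (G : Tup K n c) :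
    rs P (bmul B G) = bmul (fun m m' => ssub P (B m m')) (rs P G) := by
  funext m
  rw [rs_apply, bmul_apply, bmul_apply, map_sum]
  exact Finset.sum_congr rfl fun m' _ => by rw [map_mul, rs_apply]

theorem rs_BF {B : Fin c → Fin c → MvPolynomial (Fin (n + 1)) K}
    (hB : B ∈ BF K (Fin (n + 1)) d) : (fun m m' => ssub P (B m m')) ∈ BF K (Fin 3) d := by
  intro m m'
  refine ⟨fun h => H65.ssub_hom P ((hB m m').1 h), fun h => ?_⟩
  change ssub P (B m m') = 0
  rw [(hB m m').2 h, map_zero]

theorem bmul_sm (B : Fin c → Fin c → MvPolynomial (Fin 3) K) (q : MvPolynomial (Fin 3) K)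
    (A : T3 K c) : bmul B (sm q A) = sm q (bmul B A) := by
  funext m
  rw [bmul_apply, sm_apply, bmul_apply, Finset.mul_sum]
  exact Finset.sum_congr rfl fun m' _ => by rw [sm_apply]; ring

/-- the tuple `B F` does not move the conic -/
theorem bf_q (h : PlC D x t P) (hB' : ∀ B ∈ BF K (Fin (n + 1)) d, Fix D x P (bmul B D.F))
    {q : MvPolynomial (Fin 3) K}
    {a : Fin c → ℕ} (ha : ∀ m, 2 + a m = d m) (hq2 : q.IsHomogeneous 2)
    (hq : mulC q a ≤ RC D x t P) {B : Fin c → Fin c → MvPolynomial (Fin (n + 1)) K}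
    (hB : B ∈ BF K (Fin (n + 1)) d) : mulC (dco (DG D (bmul B D.F)) q) a ≤ RC D x t P := by
  rintro _ ⟨A, hA, rfl⟩
  have hqA : HomC d (sm q A) := fun m => by
    have := hq2.mul (hA m)
    rw [ha m] at this
    exact this
  have hHh : Hom d (lift t (sm q A)) := lift_hom hqA
  have hs : rs P (lift t (sm q A)) = sm q A := rs_lift h.Pt _
  have fH : Fix D x P (lift t (sm q A)) :=
    (fix_iff h hHh).2 (by rw [hs]; exact hq (sm_mem hA))
  have fB : Fix D x P (bmul B D.F) := hB' B hB
  have hBF : Hom d (bmul B D.F) := bmul_hom hB (r := d) (j := 0) (fun m => rfl) D.hom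
  -- the bracket
  have h1 := bracket h hBF hHh fB fH
  have h2 : dT (DG D (lift t (sm q A))) (rs P (bmul B D.F)) =
      rs P (dT (DG D (lift t (sm q A))) (bmul B D.F)) := (rs_dT fH _).symm
  rw [h2, dT_bmul, dT_F hHh, hs] at h1
  have h3 : rs P (bmul (fun m m' => dco (DG D (lift t (sm q A))) (B m m')) D.F) ∈
      RC D x t P := (fix_iff h (bmul_hom (dco_BF _ hB) (r := d) (j := 0) (fun m => rfl)
        D.hom)).1 (hB' _ (dco_BF _ hB))
  have h4 : sm q (bmul (fun m m' => ssub P (B m m')) A) ∈ RC D x t P :=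
    hq (sm_mem (bmul_hom (rs_BF hB) (j := 2) (fun m => by rw [← ha m, add_comm]) hA))
  have h5 : sm q (dT (DG D (bmul B D.F)) A) ∈ RC D x t P := hq (sm_mem (dT_hom _ hA))
  have h6 : rs P (bmul (fun m m' => dco (DG D (lift t (sm q A))) (B m m')) D.F +
      bmul B (lift t (sm q A))) =
      rs P (bmul (fun m m' => dco (DG D (lift t (sm q A))) (B m m')) D.F) +
        sm q (bmul (fun m m' => ssub P (B m m')) A) := by
    funext m
    rw [rs_apply, Pi.add_apply, map_add, Pi.add_apply, ← rs_apply, ← rs_apply, rs_bmul B, hs,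
      bmul_sm]
  rw [h6] at h1
  have h7 := (RC D x t P).sub_mem ((RC D x t P).add_mem ((RC D x t P).add_mem h1 h3) h4) h5
  have h8 : sm (dco (DG D (bmul B D.F)) q) A =
      dT (DG D (bmul B D.F)) (sm q A) -
        (rs P (bmul (fun m m' => dco (DG D (lift t (sm q A))) (B m m')) D.F) +
          sm q (bmul (fun m m' => ssub P (B m m')) A)) +
        rs P (bmul (fun m m' => dco (DG D (lift t (sm q A))) (B m m')) D.F) +
        sm q (bmul (fun m m' => ssub P (B m m')) A) - sm q (dT (DG D (bmul B D.F)) A) := by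
    funext m
    simp only [Pi.sub_apply, Pi.add_apply]
    rw [dT_apply, sm_apply, sm_apply, H75.dco_mul, sm_apply, sm_apply, dT_apply]
    ring
  rw [h8]
  exact h7

end qeq

/-- Row QEQ. -/
theorem qeq : QeqStatement := by
  intro hU hC K _ _ n c d D x t P hT hc h hR q hq hq0 hqR
  have ha := two_add hT
  have h1 : ∀ q' : MvPolynomial (Fin 3) K, q'.IsHomogeneous 2 →
      mulC q' (fun m => d m - 2) ≤ RC D x t P → ∃ r, q' = C r * q :=
    fun q' hq' hq'R => hU K n c d _ _ hT hc hR q q' hq hq' hq0 hqR hq'R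
  refine ⟨fun E => qeq_of h.plC (pcanC_of hC hT h) ha hq hqR h1 E, fun B hB => ?_⟩
  exact h1 _ (H75.dco_hom _ hq) (bf_q h.plC (hC K n c d D x t P hT h).2 ha hq hqR hB)

section stab

variable {K : Type} [Field K] {n c : ℕ} {d : Fin c → ℕ}

theorem BF_le : BF K (Fin 3) d ≤
    Submodule.pi Set.univ fun m => Submodule.pi Set.univ fun m' =>
      homogeneousSubmodule (Fin 3) K (d m - d m') := by
  intro B hB m _ m' _
  change (B m m').IsHomogeneous (d m - d m')
  by_cases h : d m' ≤ d m
  · exact (hB m m').1 h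
  · rw [(hB m m').2 (not_le.1 h)]
    exact isHomogeneous_zero _ _ _

instance finite_BF : FiniteDimensional K (BF K (Fin 3) d) := by
  have f1 : ∀ m m', FiniteDimensional K (homogeneousSubmodule (Fin 3) K (d m - d m')) :=
    fun m m' => H65.finite_hom3 K _
  exact Submodule.finiteDimensional_of_le BF_le

theorem mem_kk {D : DSys K n c d} {P : Fin 3 → Fin (n + 1) → K} {q : MvPolynomial (Fin 3) K}
    {a : (Fin 3 → Fin (n + 1) → K) × (Fin c → Fin c → MvPolynomial (Fin 3) K)} :
    a ∈ kk D P q ↔ a.2 ∈ BF K (Fin 3) d ∧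
      phiC D P a.1 + bmul a.2 (fP D P) ∈ mulC q (fun m => d m - 2) := Iff.rfl

/-- `B ↦ B f` -/
noncomputable def bmulL (f : T3 K c) :
    (Fin c → Fin c → MvPolynomial (Fin 3) K) →ₗ[K] T3 K c where
  toFun B := bmul B f
  map_add' B B' := by
    funext m
    rw [Pi.add_apply, bmul_apply, bmul_apply, bmul_apply, ← Finset.sum_add_distrib]
    exact Finset.sum_congr rfl fun m' _ => by rw [Pi.add_apply, Pi.add_apply, add_mul]
  map_smul' r B := by
    funext m
    rw [RingHom.id_apply, Pi.smul_apply, bmul_apply, bmul_apply, Finset.smul_sum]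
    exact Finset.sum_congr rfl fun m' _ => by rw [Pi.smul_apply, Pi.smul_apply, smul_mul_assoc]

theorem bmulL_apply (f : T3 K c) (B : Fin c → Fin c → MvPolynomial (Fin 3) K) :
    bmulL f B = bmul B f := rfl

/-- `dim kk >= dim BF + 2` -/
theorem le_kk (D : DSys K n c d) (P : Fin 3 → Fin (n + 1) → K) (hT : Ty n c d)
    {q : MvPolynomial (Fin 3) K} (hq : q.IsHomogeneous 2) (hq0 : q ≠ 0) :
    Module.finrank K (BF K (Fin 3) d) + 2 ≤ Module.finrank K (kk D P q) := by
  have ha := two_add hT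
  have hd : ∀ m, 1 ≤ d m := fun m => by have := hT.two m; omega
  have fa : ∀ m, Module.Finite K (T2.S3 K (d m - 2)) := fun m => H65.finite_hom3 K (d m - 2)
  have fd : ∀ m, Module.Finite K (T2.S3 K (d m)) := fun m => H65.finite_hom3 K (d m)
  let U := ((Fin 3 → Fin (n + 1) → K) × BF K (Fin 3) d) × (∀ m, T2.S3 K (d m - 2))
  let ψ1 : U →ₗ[K] T3 K c :=
    ((phiC D P).coprod ((bmulL (fP D P)).comp (BF K (Fin 3) d).subtype)).coprod
      (-(LinearMap.pi fun m =>
      ((LinearMap.mulLeft K q).comp (T2.S3 K (d m - 2)).subtype).comp (LinearMap.proj m)))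
  have hψ1 : ∀ (u : U) m, ψ1 u m = (phiC D P u.1.1 + bmul u.1.2.1 (fP D P)) m -
      q * (u.2 m : MvPolynomial (Fin 3) K) := by
    intro u m
    change (phiC D P u.1.1 + bmul u.1.2.1 (fP D P)) m +
      -(q * (u.2 m : MvPolynomial (Fin 3) K)) = _
    rw [sub_eq_add_neg]
  have hfP : ∀ m, (fP D P m).IsHomogeneous (d m) := rs_hom D.hom
  have hm : ∀ u m, ψ1 u m ∈ T2.S3 K (d m) := by
    intro u m
    rw [hψ1]
    refine (T2.S3 K (d m)).sub_mem ((T2.S3 K (d m)).add_mem (phiC_hom D hd P u.1.1 m)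
      (bmul_hom u.1.2.2 (r := d) (j := 0) (fun m => rfl) hfP m)) ?_
    have h := hq.mul (u.2 m).2
    rw [ha m] at h
    exact h
  let ψ : U →ₗ[K] (∀ m, T2.S3 K (d m)) :=
    LinearMap.pi fun m => ((LinearMap.proj m).comp ψ1).codRestrict _ (fun u => hm u m)
  have hker : ∀ u, u ∈ LinearMap.ker ψ ↔
      ∀ m, (phiC D P u.1.1 + bmul u.1.2.1 (fP D P)) m =
        q * (u.2 m : MvPolynomial (Fin 3) K) := by
    intro u
    rw [LinearMap.mem_ker, funext_iff]
    refine forall_congr' fun m => ?_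
    rw [← sub_eq_zero (a := (phiC D P u.1.1 + bmul u.1.2.1 (fP D P)) m), ← hψ1]
    exact Subtype.ext_iff
  have h1 := LinearMap.finrank_range_add_finrank_ker ψ
  have h2 : Module.finrank K (LinearMap.range ψ) ≤
      Module.finrank K (∀ m, T2.S3 K (d m)) := Submodule.finrank_le _
  have hch : ∀ b : Fin c → ℕ, Module.finrank K (∀ m, T2.S3 K (b m)) =
      ∑ m, (b m + 2).choose 2 := by
    intro b
    have fb : ∀ m, Module.Finite K (T2.S3 K (b m)) := fun m => H65.finite_hom3 K (b m)
    rw [Module.finrank_pi_fintype]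
    exact Finset.sum_congr rfl fun m _ => H65.finrank_hom3 K (b m)
  rw [hch] at h2
  have h15 : Module.finrank K (Fin 3 → Fin (n + 1) → K) = 3 * (n + 1) := by
    rw [Module.finrank_pi_fintype]
    simp
  have hU : Module.finrank K U = 3 * (n + 1) + Module.finrank K (BF K (Fin 3) d) +
      ∑ m, (d m - 2 + 2).choose 2 := by
    rw [Module.finrank_prod, Module.finrank_prod, h15, hch fun m => d m - 2]
  rw [hU] at h1
  have h5 : ∑ m, (d m + 2).choose 2 = ∑ m, (d m - 2 + 2).choose 2 + (2 * ∑ m, d m + c) := by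
    have h2 : ∑ m, (2 * d m + 1) = 2 * ∑ m, d m + c := by
      rw [Finset.sum_add_distrib, ← Finset.mul_sum]
      simp
    rw [← h2, ← Finset.sum_add_distrib]
    refine Finset.sum_congr rfl fun m _ => ?_
    have h6 := choose_diff (d m - 2)
    rw [ha m] at h6
    exact h6
  rw [h5, hT.sum] at h2
  have hn := hT.hn
  have h3 : Module.finrank K (BF K (Fin 3) d) + 2 ≤ Module.finrank K (LinearMap.ker ψ) := by
    omega
  refine h3.trans ?_
  have hfin : FiniteDimensional K (kk D P q) := by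
    refine Submodule.finiteDimensional_of_le (S₂ := LinearMap.range
      ((LinearMap.id (R := K) (M := Fin 3 → Fin (n + 1) → K)).prodMap
        (BF K (Fin 3) d).subtype)) ?_
    intro a ha
    exact ⟨(a.1, ⟨a.2, ha.1⟩), rfl⟩
  let j1 : LinearMap.ker ψ →ₗ[K]
      ((Fin 3 → Fin (n + 1) → K) × (Fin c → Fin c → MvPolynomial (Fin 3) K)) :=
    ((LinearMap.id (R := K) (M := Fin 3 → Fin (n + 1) → K)).prodMap
      (BF K (Fin 3) d).subtype).comp ((LinearMap.fst K _ _).comp (LinearMap.ker ψ).subtype)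
  have hj1 : ∀ u, j1 u = (u.1.1.1, u.1.1.2.1) := fun u => rfl
  let j : LinearMap.ker ψ →ₗ[K] kk D P q := j1.codRestrict _ (by
      intro u
      rw [hj1, mem_kk]
      refine ⟨u.1.1.2.2, mem_mulC.2 ⟨fun m => u.1.2 m, fun m => (u.1.2 m).2, ?_⟩⟩
      funext m
      exact ((hker u.1).1 u.2 m).symm)
  refine LinearMap.finrank_le_finrank_of_injective (f := j) ?_
  intro u v huv
  have h7 : j1 u = j1 v := congrArg Subtype.val huv
  rw [hj1, hj1, Prod.mk.injEq] at h7
  have hu1 : u.1.1 = v.1.1 := Prod.ext h7.1 (Subtype.ext h7.2)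
  have hu2 := (hker u.1).1 u.2
  have hv2 := (hker v.1).1 v.2
  have huv2 : u.1.2 = v.1.2 := by
    funext m
    have h5 := hu2 m
    rw [hu1, hv2 m] at h5
    exact Subtype.ext (mul_left_cancel₀ hq0 h5.symm)
  exact Subtype.ext (Prod.ext hu1 huv2)

variable {D : DSys K n c d} {x : Fin (n + 1) → K} {t : Fin 3 → Fin (n + 1)}
  {P : Fin 3 → Fin (n + 1) → K}

/-- the lift of a matrix of forms -/
noncomputable def liftB (t : Fin 3 → Fin (n + 1)) (B : Fin c → Fin c → MvPolynomial (Fin 3) K) :
    Fin c → Fin c → MvPolynomial (Fin (n + 1)) K := fun m m' => rename t (B m m')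

theorem liftB_mem {B : Fin c → Fin c → MvPolynomial (Fin 3) K} (hB : B ∈ BF K (Fin 3) d) :
    liftB t B ∈ BF K (Fin (n + 1)) d := by
  intro m m'
  refine ⟨fun h => ((hB m m').1 h).rename_isHomogeneous, fun h => ?_⟩
  change rename t (B m m') = 0
  rw [(hB m m').2 h, map_zero]

theorem rs_liftB (hP : ∀ i j, P i (t j) = if i = j then 1 else 0)
    (B : Fin c → Fin c → MvPolynomial (Fin 3) K) :
    rs P (bmul (liftB t B) D.F) = bmul B (fP D P) := by
  rw [rs_bmul]
  have h : (fun m m' => ssub P (liftB t B m m')) = B := by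
    funext m m'
    exact ssub_rename hP _
  rw [h]
  rfl

/-- an element of `kk` fixes the plane and the point; the tuple `E F + B F` fixes the point and
the frame -/
theorem kk_move (h : PlC D x t P) (hC : PcanC D x t P)
    (hB' : ∀ B ∈ BF K (Fin (n + 1)) d, Fix D x P (bmul B D.F))
    {e : Fin 3 → Fin (n + 1) → K} {B : Fin c → Fin c → MvPolynomial (Fin 3) K}
    (hB : B ∈ BF K (Fin 3) d)
    (he : phiC D P e + bmul B (fP D P) ∈ RC D x t P) :
    rs P (afT D (ext t e) + bmul (liftB t B) D.F) = phiC D P e + bmul B (fP D P) ∧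
    Fix D x P (afT D (ext t e)) ∧
    (∀ i f, e i f = ∑ j, mat t P (ext t e) j i * P j f) ∧
    ∃ l, (∀ j, ∑ i, mat t P (ext t e) j i * x (t i) = l * x (t j)) ∧
      ∀ f, ∑ i, x (t i) * e i f = l * x f := by
  have hE : ∀ i f, ∑ r, ext t e f r * P i r = e i f := fun i f => ext_P h.Pt e i f
  have hs0 : rs P (afT D (ext t e)) = phiC D P e := by
    rw [rs_afT]
    congr 1
    funext i f
    exact hE i f
  have hs : rs P (afT D (ext t e) + bmul (liftB t B) D.F) =
      phiC D P e + bmul B (fP D P) := by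
    funext m
    rw [rs_apply, Pi.add_apply, map_add, Pi.add_apply, ← rs_apply, ← rs_apply, hs0,
      rs_liftB h.Pt]
  have fB : Fix D x P (bmul (liftB t B) D.F) := hB' _ (liftB_mem hB)
  have hBF : Hom d (bmul (liftB t B) D.F) :=
    bmul_hom (liftB_mem hB) (r := d) (j := 0) (fun m => rfl) D.hom
  have hEF : Hom d (afT D (ext t e)) := afT_hom (ext t e)
  have h0 : Hom d (afT D (ext t e) + bmul (liftB t B) D.F) := fun m => (hEF m).add (hBF m)
  have hF1 : Fix D x P (afT D (ext t e) + bmul (liftB t B) D.F) :=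
    (fix_iff h h0).2 (by rw [hs]; exact he)
  have hF : Fix D x P (afT D (ext t e)) := by
    have := hF1.sub fB
    rwa [add_sub_cancel_right] at this
  obtain ⟨c1, c2⟩ := hC (ext t e)
  have e1 : ∀ i f, e i f = ∑ j, mat t P (ext t e) j i * P j f := by
    intro i f
    rw [← c2 i f, hF.2, zero_add, hE]
  have e2 : ∀ f, ∑ i, x (t i) * e i f = (∑ q, ext t e (t 0) q * x q) * x f := by
    intro f
    have h1 := c1 f
    rw [hF.1, zero_add] at h1
    rw [← h1, ext_dot]
    exact Finset.sum_congr rfl fun i _ => mul_comm _ _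
  refine ⟨hs, hF, e1, ∑ q, ext t e (t 0) q * x q, fun j => ?_, e2⟩
  rw [← e2 (t j)]
  refine Finset.sum_congr rfl fun i _ => ?_
  unfold mat
  rw [hE, mul_comm]

theorem dco_DG_add (G H : Tup K n c) (q : MvPolynomial (Fin 3) K) :
    dco (DG D (G + H)) q = dco (DG D G) q + dco (DG D H) q := by
  ext J
  rw [coeff_add, H75.coeff_dco, H75.coeff_dco, H75.coeff_dco, ← H75.DG_add]

end stab

/-- Row STAB. -/
theorem stab : StabStatement := by
  intro hU hB hC hI hQ K _ _ _ n c d D x t P hT hc h hR q hq hq0 hqR hok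
  have hc4 : c ≤ 4 := by
    rcases hok with h3 | ⟨h4, _⟩
    · omega
    · omega
  have hCC := pcanC_of hC hT h
  have hBB := (hC K n c d D x t P hT h).2
  have hmv : ∀ a ∈ kk D P q, _ := fun a ha => kk_move h.plC hCC hBB (mem_kk.1 ha).1
    (hqR (mem_kk.1 ha).2)
  refine ⟨?_, fun a ha => ?_⟩
  · -- the space of pairs `(L, B)`
    let μ : ((Fin 3 → Fin (n + 1) → K) × (Fin c → Fin c → MvPolynomial (Fin 3) K)) →ₗ[K]
        ((Fin 3 → Fin 3 → K) × (Fin c → Fin c → MvPolynomial (Fin 3) K)) :=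
      { toFun := fun a => (mat t P (ext t a.1), a.2)
        map_add' := fun a b => by
          refine Prod.ext ?_ rfl
          funext j i
          change mat t P (ext t (a.1 + b.1)) j i =
            mat t P (ext t a.1) j i + mat t P (ext t b.1) j i
          unfold mat
          rw [ext_P h.Pt, ext_P h.Pt, ext_P h.Pt]
          rfl
        map_smul' := fun r a => by
          refine Prod.ext ?_ rfl
          funext j i
          change mat t P (ext t (r • a.1)) j i = r * mat t P (ext t a.1) j i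
          unfold mat
          rw [ext_P h.Pt, ext_P h.Pt]
          rfl }
    refine ⟨(kk D P q).map μ, ?_⟩
    have hinj : Function.Injective (μ.domRestrict (kk D P q)) := by
      rw [← LinearMap.ker_eq_bot, LinearMap.ker_eq_bot']
      rintro ⟨a, ha⟩ h0
      have h1 : μ a = 0 := h0
      have h2 : mat t P (ext t a.1) = 0 := congrArg Prod.fst h1
      have h3 : a.2 = 0 := congrArg Prod.snd h1
      obtain ⟨_, _, e1, _⟩ := hmv a ha
      refine Subtype.ext (Prod.ext ?_ h3)
      funext i f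
      rw [e1 i f, h2]
      simp
    refine { dim := ?_, bf := ?_, fy := ?_, fq := ?_, ff := ?_ }
    · refine (le_kk D P hT hq hq0).trans ?_
      have h1 : (kk D P q).map μ = LinearMap.range (μ.domRestrict (kk D P q)) := by
        rw [LinearMap.range_domRestrict]
      rw [h1, LinearMap.finrank_range_of_inj hinj]
    · rintro _ ⟨a, ha, rfl⟩
      exact (mem_kk.1 ha).1
    · rintro _ ⟨a, ha, rfl⟩
      obtain ⟨_, _, _, l, hl, _⟩ := hmv a ha
      exact ⟨l, hl⟩
    · rintro _ ⟨a, ha, rfl⟩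
      obtain ⟨hs, _, _, _⟩ := hmv a ha
      have hEF : Hom d (afT D (ext t a.1)) := afT_hom (ext t a.1)
      have hBm := liftB_mem (t := t) (mem_kk.1 ha).1
      have hBF : Hom d (bmul (liftB t a.2) D.F) :=
        bmul_hom hBm (r := d) (j := 0) (fun m => rfl) D.hom
      obtain ⟨r1, hr1⟩ := hI hU hB hC K n c d D x t P hT hc h hR q hq hq0 hqR hok
        (afT D (ext t a.1) + bmul (liftB t a.2) D.F) (fun m => (hEF m).add (hBF m))
        (by rw [hs]; exact (mem_kk.1 ha).2)
      obtain ⟨hq1, hq2⟩ := hQ hU hC K n c d D x t P hT hc4 h hR q hq hq0 hqR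
      obtain ⟨r2, hr2⟩ := hq1 (ext t a.1)
      obtain ⟨r3, hr3⟩ := hq2 _ hBm
      refine ⟨r1 - r2 - r3, ?_⟩
      rw [dco_DG_add, hr3] at hr1
      change af (mat t P (ext t a.1)) q = _
      have hr2' : dco (DG D (afT D (ext t a.1))) q - af (mat t P (ext t a.1)) q = C r2 * q :=
        hr2
      rw [C_sub, C_sub, sub_mul, sub_mul, ← hr1, ← hr2']
      ring
    · rintro _ ⟨a, ha, rfl⟩
      obtain ⟨_, _, e1, _⟩ := hmv a ha
      change (fun m => af (mat t P (ext t a.1)) (fP D P m)) + bmul a.2 (fP D P) ∈ _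
      have h3 : (fun m => af (mat t P (ext t a.1)) (fP D P m)) = phiC D P a.1 := by
        funext m
        change af (mat t P (ext t a.1)) (rs P D.F m) = _
        rw [af_rs]
        have h4 : (fun i f => ∑ j, mat t P (ext t a.1) j i * P j f) = a.1 := by
          funext i f
          exact (e1 i f).symm
        rw [h4]
      rw [h3]
      exact (mem_kk.1 ha).2
  · obtain ⟨_, _, _, l, _, hl⟩ := hmv a ha
    exact ⟨l, hl⟩

end Pool.Agent.T2C.H8
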