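import Pool.Agent.Lib.MP_c7af3c_ag.T2C.H8.PlaneC

/-!
# MP_c7af3c_ag, project T2C: equivariance of the conic and the motions `kk` for tuples (helper8)

`D : DSys K n c d` arbitrary, `PlC D x t P` (T2C/H8/PlaneC.lean). `PcanC D x t P` is the statement
that `x` and the frame `P` move canonically: `D_(E F) x + E x = l x`,
`D_(E F) P_i + E P_i = sum_j M_ji P_j`.
* `field_eq`: `(D - E) H` on the plane is `(D - M)` of the restriction.
* `fixZ`: `D_(E F) H - E H` fixes the point and the frame, if `H` does.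
* `equiv_q`: `(D_(E F) q - M q) S <= RC`, `M = mat t P E`.
* `phiC D P e = (e * F)|plane`, `kkC D P q a = {e | (e * F)|plane in q S}`.
* `le_kkC`: `sum dim S^(a m) + 3 (n + 1) <= dim kk + sum dim S^(d m)`; `two_le_kkC`: `2 <= dim kk`
  for `sum d = n + 2`, `n = c + 3`.
* `move_of_RC`: if `(e * F)|plane` is in `RC` then `e_i = sum_j L_ji P_j`, and `L` fixes the point.
* `kkC_stab`: an element of `kk` fixes the plane, the point and the conic.
* `dT_rsF`: `D_G (F|plane) = G|plane + (D_G P * F)|plane`; `dT_rsF_const` for a derivation which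
  kills the coefficients of `F`.
-/

set_option autoImplicit false

namespace Pool.Agent.T2C.H8

open MvPolynomial Pool.Agent.Gen Pool.Agent.Sharp Pool.Agent.Edge
open Pool.Agent.Sharp.H75 (dco DG af lf Tup Hom afT)
open Pool.Agent.Edge.H65 (ssub)
open Pool.Agent.T2 (S3)

section eqv

variable {K : Type} [Field K] {n c : ℕ} {d : Fin c → ℕ}

theorem af_mul (A : Fin (n + 1) → Fin (n + 1) → K)
    (F G : MvPolynomial (Fin (n + 1)) K) : af A (F * G) = af A F * G + F * af A G := by
  unfold af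
  rw [Finset.sum_mul, Finset.mul_sum, ← Finset.sum_add_distrib]
  refine Finset.sum_congr rfl fun p _ => ?_
  rw [Derivation.leibniz]
  simp only [smul_eq_mul]
  ring

variable {D : DSys K n c d} {x : Fin (n + 1) → K} {t : Fin 3 → Fin (n + 1)}
  {P : Fin 3 → Fin (n + 1) → K}

theorem ssub_lf (a : Fin (n + 1) → K) :
    ssub P (H75.lf a) = ∑ i, C (∑ r, a r * P i r) * X i := by
  unfold H75.lf
  rw [map_sum]
  have h : ∀ q, ssub P (C (a q) * X q) = ∑ i, C (a q * P i q) * X i := by
    intro q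
    rw [map_mul, H65.ssub_C, H65.ssub_X, Finset.mul_sum]
    refine Finset.sum_congr rfl fun i _ => ?_
    rw [map_mul, mul_assoc]
  simp only [h]
  rw [Finset.sum_comm]
  refine Finset.sum_congr rfl fun i _ => ?_
  rw [map_sum, Finset.sum_mul]

/-- the vector field of `E` on the plane -/
theorem field_eq (δ : Derivation ℤ K K) (E : Fin (n + 1) → Fin (n + 1) → K)
    (M : Fin 3 → Fin 3 → K)
    (hP : ∀ i f, δ (P i f) + ∑ q, E f q * P i q = ∑ j, M j i * P j f)
    (H : MvPolynomial (Fin (n + 1)) K) :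
    ssub P (dco δ H - af E H) = dco δ (ssub P H) - af M (ssub P H) := by
  rw [map_sub, H65.dco_ssub]
  have h0 : ssub P (af E H) = ∑ p, ssub P (pderiv p H) * ssub P (H75.lf (E p)) := by
    unfold af
    rw [map_sum]
    exact Finset.sum_congr rfl fun p _ => by rw [map_mul, mul_comm]
  have h1 : af M (ssub P H) =
      ∑ p, ssub P (pderiv p H) * ∑ i, C (∑ j, M j i * P j p) * X i := by
    unfold af
    have h2 : ∀ j : Fin 3, H75.lf (M j) * pderiv j (ssub P H) =
        ∑ p, ssub P (pderiv p H) * ∑ i, C (M j i * P j p) * X i := by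
      intro j
      rw [H65.pderiv_ssub, Finset.mul_sum]
      refine Finset.sum_congr rfl fun p _ => ?_
      unfold H75.lf
      rw [Finset.sum_mul, Finset.mul_sum]
      refine Finset.sum_congr rfl fun i _ => ?_
      rw [map_mul]
      ring
    rw [Finset.sum_congr rfl fun j _ => h2 j, Finset.sum_comm]
    refine Finset.sum_congr rfl fun p _ => ?_
    rw [← Finset.mul_sum, Finset.sum_comm]
    congr 1
    refine Finset.sum_congr rfl fun i _ => ?_
    rw [map_sum, Finset.sum_mul]
  have h2 : ∑ p, ssub P (pderiv p H) * ∑ i, C (δ (P i p)) * X i +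
      ∑ p, ssub P (pderiv p H) * ssub P (H75.lf (E p)) =
      ∑ p, ssub P (pderiv p H) * ∑ i, C (∑ j, M j i * P j p) * X i := by
    rw [← Finset.sum_add_distrib]
    refine Finset.sum_congr rfl fun p _ => ?_
    rw [ssub_lf, ← mul_add, ← Finset.sum_add_distrib]
    congr 1
    refine Finset.sum_congr rfl fun i _ => ?_
    rw [← add_mul, ← map_add, hP i p]
  rw [h0, h1]
  linear_combination -h2

/-- the derivative of the product with a vector which is not moved -/
theorem der_dot (δ : Derivation ℤ K K) (a z : Fin (n + 1) → K) (hz : ∀ f, δ (z f) = 0) :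
    δ (∑ q, a q * z q) = ∑ q, δ (a q) * z q := by
  rw [map_sum]
  refine Finset.sum_congr rfl fun r _ => ?_
  rw [Derivation.leibniz, hz]
  simp only [smul_eq_mul]
  rw [mul_zero, zero_add, mul_comm]

/-- the matrix of `E` on the frame -/
def mat (t : Fin 3 → Fin (n + 1)) (P : Fin 3 → Fin (n + 1) → K)
    (E : Fin (n + 1) → Fin (n + 1) → K) (j i : Fin 3) : K := ∑ q, E (t j) q * P i q

theorem afT_apply (E : Fin (n + 1) → Fin (n + 1) → K) (m : Fin c) :
    afT D E m = af E (D.F m) := rfl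

/-- the point and the frame move canonically under `E F` -/
def PcanC (D : DSys K n c d) (x : Fin (n + 1) → K) (t : Fin 3 → Fin (n + 1))
    (P : Fin 3 → Fin (n + 1) → K) : Prop := ∀ E : Fin (n + 1) → Fin (n + 1) → K,
  (∀ f, DG D (afT D E) (x f) + ∑ q, E f q * x q = (∑ q, E (t 0) q * x q) * x f) ∧
  ∀ i f, DG D (afT D E) (P i f) + ∑ q, E f q * P i q = ∑ j, mat t P E j i * P j f

theorem afT_hom (E : Fin (n + 1) → Fin (n + 1) → K) : Hom d (afT D E) :=
  fun m => H75.af_hom _ (D.hom m)

/-- the tuple `E H` -/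
noncomputable def afH (E : Fin (n + 1) → Fin (n + 1) → K) (H : Tup K n c) : Tup K n c :=
  fun m => af E (H m)

theorem afH_apply (E : Fin (n + 1) → Fin (n + 1) → K) (H : Tup K n c) (m : Fin c) :
    afH E H m = af E (H m) := rfl

theorem afH_hom (E : Fin (n + 1) → Fin (n + 1) → K) {H : Tup K n c} (hH : Hom d H) :
    Hom d (afH E H) := fun m => H75.af_hom _ (hH m)

/-- the tuple `D_(E F) H - E H` fixes the point and the frame -/
theorem fixZ (h : PlC D x t P) (hC : PcanC D x t P) (E : Fin (n + 1) → Fin (n + 1) → K)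
    {H : Tup K n c} (hH : Hom d H) (fH : Fix D x P H) :
    Fix D x P (dT (DG D (afT D E)) H - afH E H) := by
  have hEF : Hom d (afT D E) := afT_hom E
  have hB : dT (DG D H) (afT D E) = afT D (fun p r => DG D H (E p r)) + afH E H := by
    funext m
    rw [dT_apply, afT_apply, H75.dco_af, H75.dco_F D hH]
    rfl
  have hcomm : ∀ f, DG D (dT (DG D (afT D E)) H - afH E H) f =
      DG D (afT D E) (DG D H f) - DG D H (DG D (afT D E) f) +
        DG D (afT D (fun p r => DG D H (E p r))) f := by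
    intro f
    rw [dG_comm h.comm hEF hH f, hB, ← H75.DG_add, sub_add_eq_sub_sub_swap, sub_add_cancel]
  obtain ⟨c1, c2⟩ := hC E
  obtain ⟨d1, d2⟩ := hC fun p r => DG D H (E p r)
  refine ⟨fun f => ?_, fun i f => ?_⟩
  · have e1 := c1 f
    have e2 := d1 f
    rw [hcomm, fH.1, map_zero]
    have e3 : DG D (afT D E) (x f) =
        (∑ q, E (t 0) q * x q) * x f - ∑ q, E f q * x q := by
      rw [← e1]; ring
    rw [e3, map_sub, Derivation.leibniz, der_dot _ _ _ fH.1, der_dot _ _ _ fH.1, fH.1]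
    simp only [smul_eq_mul]
    linear_combination e2
  · have e1 := c2 i f
    have e2 := d2 i f
    rw [hcomm, fH.2, map_zero]
    have e3 : DG D (afT D E) (P i f) =
        ∑ j, mat t P E j i * P j f - ∑ q, E f q * P i q := by
      rw [← e1]; ring
    have e5 : DG D H (∑ j, mat t P E j i * P j f) =
        ∑ j, mat t P (fun p r => DG D H (E p r)) j i * P j f := by
      rw [map_sum]
      refine Finset.sum_congr rfl fun j _ => ?_
      rw [Derivation.leibniz, fH.2]
      unfold mat
      rw [der_dot _ _ _ (fH.2 i)]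
      simp only [smul_eq_mul]
      rw [mul_zero, zero_add, mul_comm]
    rw [e3, map_sub, der_dot _ _ _ (fH.2 i), e5]
    linear_combination e2

/-- `D_(E F) q - M q` multiplies into `RC` -/
theorem equiv_q (h : PlC D x t P) (hC : PcanC D x t P) {q : MvPolynomial (Fin 3) K}
    {a : Fin c → ℕ} (ha : ∀ m, 2 + a m = d m) (hq2 : q.IsHomogeneous 2)
    (hq : mulC q a ≤ RC D x t P) (E : Fin (n + 1) → Fin (n + 1) → K) :
    mulC (dco (DG D (afT D E)) q - af (mat t P E) q) a ≤ RC D x t P := by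
  rintro _ ⟨A, hA, rfl⟩
  have hqA : HomC d (sm q A) := fun m => by
    have := hq2.mul (hA m)
    rw [ha m] at this
    exact this
  have hHh : Hom d (lift t (sm q A)) := lift_hom hqA
  have hs : rs P (lift t (sm q A)) = sm q A := rs_lift h.Pt _
  have fH : Fix D x P (lift t (sm q A)) :=
    (fix_iff h hHh).2 (by rw [hs]; exact hq (sm_mem hA))
  have fZ := fixZ h hC E hHh fH
  have hZ : Hom d (dT (DG D (afT D E)) (lift t (sm q A)) - afH E (lift t (sm q A))) :=
    Hom.sub' (dT_hom _ hHh) (afH_hom E hHh)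
  have h2 := (fix_iff h hZ).1 fZ
  have h3 : HomC a fun m => dco (DG D (afT D E)) (A m) - af (mat t P E) (A m) :=
    fun m => (H75.dco_hom _ (hA m)).sub (H75.af_hom _ (hA m))
  have h4 := (RC D x t P).sub_mem h2 (hq (sm_mem (q := q) h3))
  have h5 : rs P (dT (DG D (afT D E)) (lift t (sm q A)) - afH E (lift t (sm q A))) -
      sm q (fun m => dco (DG D (afT D E)) (A m) - af (mat t P E) (A m)) =
      sm (dco (DG D (afT D E)) q - af (mat t P E) q) A := by
    funext m
    have hf := field_eq (P := P) (DG D (afT D E)) E (mat t P E)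
      (fun i f => (hC E).2 i f) (lift t (sm q A) m)
    have hs' : ssub P (lift t (sm q A) m) = q * A m := congrFun hs m
    rw [hs', H75.dco_mul, af_mul] at hf
    rw [Pi.sub_apply, rs_apply, Pi.sub_apply, dT_apply, afH_apply, hf, sm_apply, sm_apply]
    ring
  rw [← h5]
  exact h4

/-- the conic is equivariant (from uniqueness) -/
theorem qeq_of (h : PlC D x t P) (hC : PcanC D x t P) {q : MvPolynomial (Fin 3) K}
    {a : Fin c → ℕ} (ha : ∀ m, 2 + a m = d m) (hq2 : q.IsHomogeneous 2)
    (hq : mulC q a ≤ RC D x t P)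
    (h1 : ∀ q' : MvPolynomial (Fin 3) K, q'.IsHomogeneous 2 → mulC q' a ≤ RC D x t P →
      ∃ r, q' = C r * q) (E : Fin (n + 1) → Fin (n + 1) → K) :
    ∃ r, dco (DG D (afT D E)) q - af (mat t P E) q = C r * q :=
  h1 _ ((H75.dco_hom _ hq2).sub (H75.af_hom _ hq2)) (equiv_q h hC ha hq2 hq E)

end eqv

section stab

variable {K : Type} [Field K] {n c : ℕ} {d : Fin c → ℕ}

/-- `e ↦ (e * F)|plane` -/
noncomputable def phiC (D : DSys K n c d) (P : Fin 3 → Fin (n + 1) → K) :
    (Fin 3 → Fin (n + 1) → K) →ₗ[K] T3 K c where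
  toFun e := fun m => ∑ j, X j * ∑ p, C (e j p) * ssub P (pderiv p (D.F m))
  map_add' e e' := by
    funext m
    rw [Pi.add_apply]
    simp only [Pi.add_apply, map_add, add_mul, Finset.sum_add_distrib, mul_add]
  map_smul' r e := by
    funext m
    rw [RingHom.id_apply, Pi.smul_apply, Finset.smul_sum]
    refine Finset.sum_congr rfl fun j _ => ?_
    rw [← mul_smul_comm, Finset.smul_sum]
    congr 1
    refine Finset.sum_congr rfl fun p _ => ?_
    rw [Pi.smul_apply, Pi.smul_apply, smul_eq_mul, map_mul, smul_eq_C_mul, mul_assoc]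

theorem phiC_apply (D : DSys K n c d) (P e : Fin 3 → Fin (n + 1) → K) (m : Fin c) :
    phiC D P e m = ∑ j, X j * ∑ p, C (e j p) * ssub P (pderiv p (D.F m)) := rfl

/-- the motions of the plane with `(e * F)|plane` in `q S` -/
noncomputable def kkC (D : DSys K n c d) (P : Fin 3 → Fin (n + 1) → K)
    (q : MvPolynomial (Fin 3) K) (a : Fin c → ℕ) : Submodule K (Fin 3 → Fin (n + 1) → K) :=
  (mulC q a).comap (phiC D P)

theorem mem_kkC {D : DSys K n c d} {P : Fin 3 → Fin (n + 1) → K} {q : MvPolynomial (Fin 3) K}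
    {a : Fin c → ℕ} {e : Fin 3 → Fin (n + 1) → K} :
    e ∈ kkC D P q a ↔ phiC D P e ∈ mulC q a := Iff.rfl

theorem phiC_hom (D : DSys K n c d) (hd : ∀ m, 1 ≤ d m) (P e : Fin 3 → Fin (n + 1) → K) :
    HomC d (phiC D P e) := by
  intro m
  rw [phiC_apply]
  refine IsHomogeneous.sum _ _ _ fun j _ => ?_
  have h1 : (∑ p, C (e j p) * ssub P (pderiv p (D.F m))).IsHomogeneous (d m - 1) := by
    refine IsHomogeneous.sum _ _ _ fun p _ => ?_
    have h2 := (isHomogeneous_C (Fin 3) (e j p)).mul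
      (H65.ssub_hom P ((D.hom m).pderiv (i := p)))
    rw [zero_add] at h2
    exact h2
  have h2 := (isHomogeneous_X K j).mul h1
  rwa [Nat.add_sub_cancel' (hd m)] at h2

/-- the dimension of the motions with `(e * F)|plane` in `q S` -/
theorem le_kkC (D : DSys K n c d) (hd : ∀ m, 1 ≤ d m) (P : Fin 3 → Fin (n + 1) → K)
    {q : MvPolynomial (Fin 3) K} {a : Fin c → ℕ} (ha : ∀ m, 2 + a m = d m)
    (hq : q.IsHomogeneous 2) (hq0 : q ≠ 0) :
    3 * (n + 1) + ∑ m, (a m + 2).choose 2 ≤
      Module.finrank K (kkC D P q a) + ∑ m, (d m + 2).choose 2 := by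
  have fa : ∀ m, Module.Finite K (S3 K (a m)) := fun m => H65.finite_hom3 K (a m)
  have fd : ∀ m, Module.Finite K (S3 K (d m)) := fun m => H65.finite_hom3 K (d m)
  let ψ1 : ((Fin 3 → Fin (n + 1) → K) × (∀ m, S3 K (a m))) →ₗ[K] T3 K c :=
    (phiC D P).coprod (-(LinearMap.pi fun m =>
      ((LinearMap.mulLeft K q).comp (S3 K (a m)).subtype).comp (LinearMap.proj m)))
  have hψ1 : ∀ u m, ψ1 u m = phiC D P u.1 m - q * (u.2 m : MvPolynomial (Fin 3) K) := by
    intro u m
    change phiC D P u.1 m + -(q * (u.2 m : MvPolynomial (Fin 3) K)) = _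
    rw [sub_eq_add_neg]
  have hm : ∀ u m, ψ1 u m ∈ S3 K (d m) := by
    intro u m
    rw [hψ1]
    refine (S3 K (d m)).sub_mem (phiC_hom D hd P u.1 m) ?_
    have h := hq.mul (u.2 m).2
    rw [ha m] at h
    exact h
  let ψ : ((Fin 3 → Fin (n + 1) → K) × (∀ m, S3 K (a m))) →ₗ[K] (∀ m, S3 K (d m)) :=
    LinearMap.pi fun m => ((LinearMap.proj m).comp ψ1).codRestrict _ (fun u => hm u m)
  have hker : ∀ u, u ∈ LinearMap.ker ψ ↔
      ∀ m, phiC D P u.1 m = q * (u.2 m : MvPolynomial (Fin 3) K) := by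
    intro u
    rw [LinearMap.mem_ker, funext_iff]
    refine forall_congr' fun m => ?_
    rw [← sub_eq_zero (a := phiC D P u.1 m), ← hψ1]
    exact Subtype.ext_iff
  have h1 := LinearMap.finrank_range_add_finrank_ker ψ
  have h2 : Module.finrank K (LinearMap.range ψ) ≤ Module.finrank K (∀ m, S3 K (d m)) :=
    Submodule.finrank_le _
  have hch : ∀ b : Fin c → ℕ, Module.finrank K (∀ m, S3 K (b m)) =
      ∑ m, (b m + 2).choose 2 := by
    intro b
    have fb : ∀ m, Module.Finite K (S3 K (b m)) := fun m => H65.finite_hom3 K (b m)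
    rw [Module.finrank_pi_fintype]
    exact Finset.sum_congr rfl fun m _ => H65.finrank_hom3 K (b m)
  rw [hch] at h2
  rw [Module.finrank_prod, hch] at h1
  have h15 : Module.finrank K (Fin 3 → Fin (n + 1) → K) = 3 * (n + 1) := by
    rw [Module.finrank_pi_fintype]
    simp
  rw [h15] at h1
  have h3 : 3 * (n + 1) + ∑ m, (a m + 2).choose 2 ≤
      Module.finrank K (LinearMap.ker ψ) + ∑ m, (d m + 2).choose 2 := by omega
  refine h3.trans (Nat.add_le_add_right ?_ _)
  let j : LinearMap.ker ψ →ₗ[K] kkC D P q a :=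
    ((LinearMap.fst K _ _).comp (LinearMap.ker ψ).subtype).codRestrict _ (by
      intro u
      rw [mem_kkC, mem_mulC]
      refine ⟨fun m => u.1.2 m, fun m => (u.1.2 m).2, ?_⟩
      funext m
      exact ((hker u.1).1 u.2 m).symm)
  refine LinearMap.finrank_le_finrank_of_injective (f := j) ?_
  intro u v huv
  have hu1 : u.1.1 = v.1.1 := congrArg Subtype.val huv
  have hu2 := (hker u.1).1 u.2
  have hv2 := (hker v.1).1 v.2
  have huv2 : u.1.2 = v.1.2 := by
    funext m
    have h5 := hu2 m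
    rw [hu1, hv2 m] at h5
    exact Subtype.ext (mul_left_cancel₀ hq0 h5.symm)
  exact Subtype.ext (Prod.ext hu1 huv2)

/-- `dim S^e - dim S^(e - 2) = 2 e + 1` -/
theorem choose_diff (e : ℕ) : (2 + e + 2).choose 2 = (e + 2).choose 2 + (2 * (2 + e) + 1) := by
  rw [Nat.choose_two_right, Nat.choose_two_right]
  have h1 : (2 + e + 2) * (2 + e + 2 - 1) = (e + 2) * (e + 2 - 1) + 2 * (2 * (2 + e) + 1) := by
    have e1 : 2 + e + 2 - 1 = e + 3 := by omega
    have e2 : e + 2 - 1 = e + 1 := by omega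
    rw [e1, e2]
    ring
  rw [h1, Nat.add_mul_div_left _ _ (by norm_num)]

/-- `2 <= dim kk` for `sum d = n + 2`, `n = c + 3` -/
theorem two_le_kkC (D : DSys K n c d) (P : Fin 3 → Fin (n + 1) → K)
    {q : MvPolynomial (Fin 3) K} {a : Fin c → ℕ} (ha : ∀ m, 2 + a m = d m)
    (hn : n = c + 3) (hs : ∑ m, d m = n + 2)
    (hq : q.IsHomogeneous 2) (hq0 : q ≠ 0) : 2 ≤ Module.finrank K (kkC D P q a) := by
  have h := le_kkC D (fun m => by have := ha m; omega) P ha hq hq0
  have h1 : ∑ m, (d m + 2).choose 2 = ∑ m, (a m + 2).choose 2 + (2 * ∑ m, d m + c) := by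
    have h2 : ∑ m, (2 * d m + 1) = 2 * ∑ m, d m + c := by
      rw [Finset.sum_add_distrib, ← Finset.mul_sum]
      simp
    rw [← h2, ← Finset.sum_add_distrib]
    refine Finset.sum_congr rfl fun m _ => ?_
    rw [← ha m, choose_diff]
  rw [h1, hs] at h
  omega

variable {D : DSys K n c d} {x : Fin (n + 1) → K} {t : Fin 3 → Fin (n + 1)}
  {P : Fin 3 → Fin (n + 1) → K}

/-- a matrix with `E P_i = e_i` -/
def ext (t : Fin 3 → Fin (n + 1)) (e : Fin 3 → Fin (n + 1) → K) (f q : Fin (n + 1)) : K :=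
  ∑ i, if q = t i then e i f else 0

theorem ext_dot (t : Fin 3 → Fin (n + 1)) (e : Fin 3 → Fin (n + 1) → K)
    (z : Fin (n + 1) → K) (f : Fin (n + 1)) :
    ∑ q, ext t e f q * z q = ∑ i, e i f * z (t i) := by
  unfold ext
  simp only [Finset.sum_mul]
  rw [Finset.sum_comm]
  refine Finset.sum_congr rfl fun i _ => ?_
  rw [Finset.sum_eq_single (t i)]
  · rw [if_pos rfl]
  · intro q _ hq
    rw [if_neg hq, zero_mul]
  · intro h; exact absurd (Finset.mem_univ _) h

theorem ext_P (h : ∀ i j, P i (t j) = if i = j then 1 else 0) (e : Fin 3 → Fin (n + 1) → K)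
    (i : Fin 3) (f : Fin (n + 1)) : ∑ q, ext t e f q * P i q = e i f := by
  rw [ext_dot, Finset.sum_eq_single i]
  · rw [h, if_pos rfl, mul_one]
  · intro j _ hj
    rw [h, if_neg (Ne.symm hj), mul_zero]
  · intro h; exact absurd (Finset.mem_univ _) h

/-- the restriction of `E F` -/
theorem rs_afT (E : Fin (n + 1) → Fin (n + 1) → K) :
    rs P (afT D E) = phiC D P fun i f => ∑ q, E f q * P i q := by
  funext m
  rw [phiC_apply, rs_apply, afT_apply]
  unfold af
  rw [map_sum]
  simp only [map_mul, ssub_lf]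
  simp only [Finset.sum_mul, Finset.mul_sum]
  rw [Finset.sum_comm]
  refine Finset.sum_congr rfl fun i _ => Finset.sum_congr rfl fun p _ => ?_
  ring

/-- the vector field `L` on the plane applied to the restriction of `F` -/
theorem af_rs (L : Fin 3 → Fin 3 → K) (m : Fin c) :
    af L (rs P D.F m) = phiC D P (fun i f => ∑ j, L j i * P j f) m := by
  rw [phiC_apply, rs_apply]
  unfold af
  have h2 : ∀ j : Fin 3, H75.lf (L j) * pderiv j (ssub P (D.F m)) =
      ∑ i, ∑ p, X i * (C (L j i * P j p) * ssub P (pderiv p (D.F m))) := by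
    intro j
    rw [H65.pderiv_ssub]
    unfold H75.lf
    rw [Finset.sum_mul_sum]
    refine Finset.sum_congr rfl fun i _ => Finset.sum_congr rfl fun p _ => ?_
    rw [map_mul]
    ring
  rw [Finset.sum_congr rfl fun j _ => h2 j, Finset.sum_comm]
  refine Finset.sum_congr rfl fun i _ => ?_
  rw [Finset.sum_comm, Finset.mul_sum]
  refine Finset.sum_congr rfl fun p _ => ?_
  rw [← Finset.mul_sum, ← Finset.sum_mul, map_sum]

/-- `delta (F|plane) = (delta F)|plane + (delta P * F)|plane` -/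
theorem dT_rs (δ : Derivation ℤ K K) :
    dT δ (rs P D.F) = rs P (dT δ D.F) + phiC D P fun i f => δ (P i f) := by
  funext m
  rw [Pi.add_apply, phiC_apply, dT_apply, rs_apply, rs_apply, dT_apply, H65.dco_ssub]
  congr 1
  simp only [Finset.mul_sum]
  rw [Finset.sum_comm]
  refine Finset.sum_congr rfl fun i _ => Finset.sum_congr rfl fun p _ => ?_
  ring

/-- `D_G (F|plane) = G|plane + (D_G P * F)|plane` -/
theorem dT_rsF {G : Tup K n c} (hG : Hom d G) :
    dT (DG D G) (rs P D.F) = rs P G + phiC D P fun i f => DG D G (P i f) := by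
  rw [dT_rs, dT_F hG]

/-- a derivation which kills the coefficients of `F` -/
theorem dT_rsF_const {δ : Derivation ℤ K K} (hδ : ∀ m I, δ (coeff I (D.F m)) = 0) :
    dT δ (rs P D.F) = phiC D P fun i f => δ (P i f) := by
  have h : dT δ D.F = 0 := by
    funext m
    rw [dT_apply]
    ext I
    rw [H75.coeff_dco, hδ]
    rfl
  rw [dT_rs, h]
  have h0 : rs P (0 : Tup K n c) = 0 := by
    funext m
    rw [rs_apply, Pi.zero_apply, map_zero, Pi.zero_apply]
  rw [h0, zero_add]

/-- a motion with `(e * F)|plane` in `RC` fixes the plane and the point -/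
theorem move_of_RC (h : PlC D x t P) (hC : PcanC D x t P) {e : Fin 3 → Fin (n + 1) → K}
    (he : phiC D P e ∈ RC D x t P) :
    Fix D x P (afT D (ext t e)) ∧
    (∀ i f, e i f = ∑ j, mat t P (ext t e) j i * P j f) ∧
    ∃ l, ∀ j, ∑ i, mat t P (ext t e) j i * x (t i) = l * x (t j) := by
  have hE : ∀ i f, ∑ r, ext t e f r * P i r = e i f := fun i f => ext_P h.Pt e i f
  have hs : rs P (afT D (ext t e)) = phiC D P e := by
    rw [rs_afT]
    congr 1
    funext i f
    exact hE i f
  have hEF : Hom d (afT D (ext t e)) := afT_hom (ext t e)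
  have hF : Fix D x P (afT D (ext t e)) := (fix_iff h hEF).2 (by rw [hs]; exact he)
  obtain ⟨c1, c2⟩ := hC (ext t e)
  have e1 : ∀ i f, e i f = ∑ j, mat t P (ext t e) j i * P j f := by
    intro i f
    rw [← c2 i f, hF.2, zero_add, hE]
  refine ⟨hF, e1, ∑ q, ext t e (t 0) q * x q, fun j => ?_⟩
  have h1 := c1 (t j)
  rw [hF.1, zero_add] at h1
  rw [← h1, ext_dot]
  refine Finset.sum_congr rfl fun i _ => ?_
  unfold mat
  rw [hE]

/-- a motion with `(e * F)|plane` in `q S` fixes the plane, the point and the conic -/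
theorem kkC_stab (h : PlC D x t P) (hC : PcanC D x t P) {q : MvPolynomial (Fin 3) K}
    {a : Fin c → ℕ} (ha : ∀ m, 2 + a m = d m) (hq2 : q.IsHomogeneous 2)
    (hq : mulC q a ≤ RC D x t P)
    (h1 : ∀ q' : MvPolynomial (Fin 3) K, q'.IsHomogeneous 2 → mulC q' a ≤ RC D x t P →
      ∃ r, q' = C r * q)
    (h2 : ∀ A, HomC a A → ∃ r, beta D t q A = C r * q)
    {e : Fin 3 → Fin (n + 1) → K} (he : e ∈ kkC D P q a) :
    ∃ L : Fin 3 → Fin 3 → K, (∀ i f, e i f = ∑ j, L j i * P j f) ∧
      (∃ l, ∀ j, ∑ i, L j i * x (t i) = l * x (t j)) ∧ (∃ r, af L q = C r * q) ∧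
      (fun m => af L (rs P D.F m)) ∈ mulC q a := by
  rw [mem_kkC] at he
  obtain ⟨hF, e1, e2⟩ := move_of_RC h hC (hq he)
  have hEF : Hom d (afT D (ext t e)) := afT_hom (ext t e)
  refine ⟨mat t P (ext t e), e1, e2, ?_, ?_⟩
  · have hs : rs P (afT D (ext t e)) = phiC D P e := by
      rw [rs_afT]
      congr 1
      funext i f
      exact ext_P h.Pt e i f
    obtain ⟨r1, hr1⟩ := qint_of h ha hq2 hq h1 h2 hEF (by rw [hs]; exact he)
    obtain ⟨r2, hr2⟩ := qeq_of h hC ha hq2 hq h1 (ext t e)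
    refine ⟨r1 - r2, ?_⟩
    rw [hr1] at hr2
    rw [C_sub, sub_mul, ← hr2]
    ring
  · have h3 : (fun m => af (mat t P (ext t e)) (rs P D.F m)) = phiC D P e := by
      funext m
      rw [af_rs]
      have h4 : (fun i f => ∑ j, mat t P (ext t e) j i * P j f) = e := by
        funext i f
        exact (e1 i f).symm
      rw [h4]
    rw [h3]
    exact he

end stab

end Pool.Agent.T2C.H8
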