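import Pool.Agent.Lib.MP_c7af3c_ag.T2.H8.Stab

/-!
# MP_c7af3c_ag, project T2C: plane type for tuples of forms (helper8)

`D : DSys K n c d` arbitrary.  `PlC D x t P`: a plane with the frame `P` through the point `x`,
normalised at the coordinates `t`, such that the tuples `G` with all restrictions zero move
neither the point nor the frame.  `RC`: the tuples of forms on the plane which move neither the
point nor the frame.  `mulC q e`: the tuples `q b`, `b m` of degree `e m`.
* `fix_iff`, `bracket`, `bracket_q`, `zeta_mem`: forms with restriction in `q S` and the conic.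
* `equiv_q`: `(D_(E F) q - (mat E) q) S <= RC`.
* `kkC`, `le_kkC`, `kkC_stab`: the motions of the plane with `(e * F)|plane` in `q S`.
-/

set_option autoImplicit false

namespace Pool.Agent.T2C.H8

open MvPolynomial Pool.Agent.Gen Pool.Agent.Sharp Pool.Agent.Edge
open Pool.Agent.Sharp.H75 (dco DG af Tup Hom)
open Pool.Agent.Edge.H65 (ssub)

section basics

variable {K : Type} [Field K] {n c : ℕ} {d : Fin c → ℕ}

/-- the tuple moves neither the point nor the frame -/
def Fix (D : DSys K n c d) (x : Fin (n + 1) → K) (P : Fin 3 → Fin (n + 1) → K)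
    (G : Tup K n c) : Prop :=
  (∀ f, DG D G (x f) = 0) ∧ ∀ i f, DG D G (P i f) = 0

/-- an integrable plane through the point -/
structure PlC (D : DSys K n c d) (x : Fin (n + 1) → K) (t : Fin 3 → Fin (n + 1))
    (P : Fin 3 → Fin (n + 1) → K) : Prop where
  comm : Lines.Comm D
  Pt : ∀ i j, P i (t j) = if i = j then 1 else 0
  int : ∀ G : Tup K n c, Hom d G → (∀ m, ssub P (G m) = 0) → Fix D x P G

variable (K) in
/-- tuples of forms in three variables -/
abbrev T3 (c : ℕ) : Type := Fin c → MvPolynomial (Fin 3) K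

/-- homogeneous tuples in three variables -/
def HomC (d : Fin c → ℕ) (g : T3 K c) : Prop := ∀ m, (g m).IsHomogeneous (d m)

/-- the lift of a tuple on the plane -/
noncomputable def lift (t : Fin 3 → Fin (n + 1)) (g : T3 K c) : Tup K n c :=
  fun m => rename t (g m)

/-- the restriction of a tuple to the plane -/
noncomputable def rs (P : Fin 3 → Fin (n + 1) → K) (G : Tup K n c) : T3 K c :=
  fun m => ssub P (G m)

variable {D : DSys K n c d} {x : Fin (n + 1) → K} {t : Fin 3 → Fin (n + 1)}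
  {P : Fin 3 → Fin (n + 1) → K}

theorem Fix.sub {G H : Tup K n c} (hG : Fix D x P G) (hH : Fix D x P H) :
    Fix D x P (G - H) :=
  ⟨fun f => by rw [H75.DG_sub, hG.1, hH.1, sub_zero],
    fun i f => by rw [H75.DG_sub, hG.2, hH.2, sub_zero]⟩

theorem Fix.add {G H : Tup K n c} (hG : Fix D x P G) (hH : Fix D x P H) :
    Fix D x P (G + H) :=
  ⟨fun f => by rw [H75.DG_add, hG.1, hH.1, add_zero],
    fun i f => by rw [H75.DG_add, hG.2, hH.2, add_zero]⟩

theorem Fix.smul {G : Tup K n c} (a : K) (hG : Fix D x P G) : Fix D x P (a • G) :=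
  ⟨fun f => by rw [H75.DG_smul, hG.1, mul_zero],
    fun i f => by rw [H75.DG_smul, hG.2, mul_zero]⟩

theorem Fix.zero : Fix D x P (0 : Tup K n c) :=
  ⟨fun _ => H75.DG_zero D _, fun _ _ => H75.DG_zero D _⟩

/-- `Fix` in terms of `VT` -/
theorem fix_iff_VT {G : Tup K n c} :
    Fix D x P G ↔ H75.VT D x G = 0 ∧ ∀ i, H75.VT D (P i) G = 0 := by
  constructor
  · rintro ⟨h1, h2⟩
    refine ⟨?_, fun i => ?_⟩
    · funext f
      rw [H75.VT_apply, h1]; rfl
    · funext f
      rw [H75.VT_apply, h2]; rfl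
  · rintro ⟨h1, h2⟩
    refine ⟨fun f => ?_, fun i f => ?_⟩
    · rw [← H75.VT_apply, h1]; rfl
    · rw [← H75.VT_apply, h2]; rfl

theorem ssub_rename (hP : ∀ i j, P i (t j) = if i = j then 1 else 0)
    (g : MvPolynomial (Fin 3) K) : ssub P (rename t g) = g := by
  unfold ssub
  rw [aeval_rename]
  have h : ((fun j => ∑ i, C (P i j) * X i) ∘ t : Fin 3 → MvPolynomial (Fin 3) K) = X := by
    funext j
    rw [Function.comp_apply, Finset.sum_eq_single j]
    · rw [hP, if_pos rfl, C_1, one_mul]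
    · intro i _ hi
      rw [hP, if_neg hi, C_0, zero_mul]
    · intro h; exact absurd (Finset.mem_univ _) h
  rw [h]
  exact aeval_X_left_apply g

theorem lift_apply (g : T3 K c) (m : Fin c) : lift (n := n) t g m = rename t (g m) := rfl

theorem rs_apply (G : Tup K n c) (m : Fin c) : rs P G m = ssub P (G m) := rfl

theorem rs_lift (hP : ∀ i j, P i (t j) = if i = j then 1 else 0) (g : T3 K c) :
    rs P (lift t g) = g := by
  funext m
  rw [rs_apply, lift_apply, ssub_rename hP]

theorem rs_sub (G H : Tup K n c) : rs P (G - H) = rs P G - rs P H := by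
  funext m
  rw [rs_apply, Pi.sub_apply, map_sub, Pi.sub_apply, rs_apply, rs_apply]

theorem lift_add (g h : T3 K c) : lift (n := n) t (g + h) = lift t g + lift t h := by
  funext m
  rw [lift_apply, Pi.add_apply, map_add, Pi.add_apply, lift_apply, lift_apply]

theorem lift_smul (a : K) (g : T3 K c) : lift (n := n) t (a • g) = a • lift t g := by
  funext m
  rw [lift_apply, Pi.smul_apply, map_smul, Pi.smul_apply, lift_apply]

theorem lift_zero : lift (n := n) t (0 : T3 K c) = 0 := by
  funext m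
  rw [lift_apply, Pi.zero_apply, map_zero, Pi.zero_apply]

theorem lift_hom {g : T3 K c} (hg : HomC d g) : Hom d (lift t g) :=
  fun m => (hg m).rename_isHomogeneous

theorem rs_hom {G : Tup K n c} (hG : Hom d G) : HomC d (rs P G) :=
  fun m => H65.ssub_hom P (hG m)

theorem Hom.sub' {G H : Tup K n c} (hG : Hom d G) (hH : Hom d H) : Hom d (G - H) :=
  fun m => (hG m).sub (hH m)

/-- tuples on the plane which move neither the point nor the frame -/
noncomputable def RC (D : DSys K n c d) (x : Fin (n + 1) → K) (t : Fin 3 → Fin (n + 1))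
    (P : Fin 3 → Fin (n + 1) → K) : Submodule K (T3 K c) where
  carrier := {g | HomC d g ∧ Fix D x P (lift t g)}
  add_mem' := by
    rintro a b ⟨ha, ha1⟩ ⟨hb, hb1⟩
    exact ⟨fun m => (ha m).add (hb m), by rw [lift_add]; exact ha1.add hb1⟩
  zero_mem' := ⟨fun m => isHomogeneous_zero _ _ _, by rw [lift_zero]; exact Fix.zero⟩
  smul_mem' := by
    rintro a g ⟨hg, hg1⟩
    exact ⟨fun m => (homogeneousSubmodule (Fin 3) K (d m)).smul_mem a (hg m), by
      rw [lift_smul]; exact hg1.smul a⟩

theorem mem_RC {g : T3 K c} : g ∈ RC D x t P ↔ HomC d g ∧ Fix D x P (lift t g) := Iff.rfl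

/-- a tuple fixes the point and the frame iff its restriction is in `RC` -/
theorem fix_iff (h : PlC D x t P) {G : Tup K n c} (hG : Hom d G) :
    Fix D x P G ↔ rs P G ∈ RC D x t P := by
  have hs : HomC d (rs P G) := rs_hom hG
  have hr : Hom d (lift t (rs P G)) := lift_hom hs
  have h0 : rs P (G - lift t (rs P G)) = 0 := by
    rw [rs_sub, rs_lift h.Pt, sub_self]
  have hf := h.int (G - lift t (rs P G)) (Hom.sub' hG hr) fun m => congrFun h0 m
  rw [mem_RC]
  constructor
  · intro hF
    refine ⟨hs, ?_⟩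
    have := hF.sub hf
    rwa [sub_sub_cancel] at this
  · rintro ⟨_, hF⟩
    have := hf.add hF
    rwa [sub_add_cancel] at this

/-- coefficientwise derivation of tuples -/
noncomputable def dT {σ : Type} (δ : Derivation ℤ K K) (G : Fin c → MvPolynomial σ K) :
    Fin c → MvPolynomial σ K := fun m => dco δ (G m)

theorem dT_hom {σ : Type} (δ : Derivation ℤ K K) {e : Fin c → ℕ} {g : Fin c → MvPolynomial σ K}
    (hg : ∀ m, (g m).IsHomogeneous (e m)) : ∀ m, (dT δ g m).IsHomogeneous (e m) :=
  fun m => H75.dco_hom δ (hg m)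

theorem dG_comm (hc : Lines.Comm D) {G H : Tup K n c} (hG : Hom d G) (hH : Hom d H) (f : K) :
    DG D G (DG D H f) - DG D H (DG D G f) = DG D (dT (DG D G) H - dT (DG D H) G) f :=
  H75.DG_comm (D := D) (fun m I m' J _ _ f => hc m I m' J f) hG hH f

theorem dT_apply {σ : Type} (δ : Derivation ℤ K K) (G : Fin c → MvPolynomial σ K) (m : Fin c) :
    dT δ G m = dco δ (G m) := rfl

theorem dT_F {G : Tup K n c} (hG : Hom d G) : dT (DG D G) D.F = G := by
  funext m
  rw [dT_apply, H75.dco_F D hG m]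

/-- restriction to a plane which is not moved -/
theorem rs_dT {G : Tup K n c} (hG : Fix D x P G) (H : Tup K n c) :
    rs P (dT (DG D G) H) = dT (DG D G) (rs P H) := by
  funext m
  rw [rs_apply, dT_apply, dT_apply, rs_apply, H65.dco_ssub]
  have h : ∑ p, ssub P (pderiv p (H m)) * ∑ i, C (DG D G (P i p)) * X i = 0 := by
    refine Finset.sum_eq_zero fun p _ => ?_
    have : ∑ i, C (DG D G (P i p)) * X i = (0 : MvPolynomial (Fin 3) K) := by
      refine Finset.sum_eq_zero fun i _ => ?_
      rw [hG.2, C_0, zero_mul]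
    rw [this, mul_zero]
  rw [h, add_zero]

/-- the bracket of two tuples which fix the point and the frame -/
theorem bracket (h : PlC D x t P) {G H : Tup K n c} (hG : Hom d G) (hH : Hom d H)
    (fG : Fix D x P G) (fH : Fix D x P H) :
    dT (DG D G) (rs P H) - dT (DG D H) (rs P G) ∈ RC D x t P := by
  rw [← rs_dT fG, ← rs_dT fH, ← rs_sub]
  refine (fix_iff h (Hom.sub' (dT_hom _ hH) (dT_hom _ hG))).1 ⟨fun f => ?_, fun i f => ?_⟩
  · rw [← dG_comm h.comm hG hH, fG.1, fH.1, map_zero, map_zero, sub_zero]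
  · rw [← dG_comm h.comm hG hH, fG.2, fH.2, map_zero, map_zero, sub_zero]

/-- the tuple `a * b m` -/
noncomputable def sm (a : MvPolynomial (Fin 3) K) (b : T3 K c) : T3 K c := fun m => a * b m

theorem sm_apply (a : MvPolynomial (Fin 3) K) (b : T3 K c) (m : Fin c) :
    sm a b m = a * b m := rfl

theorem sm_add (a : MvPolynomial (Fin 3) K) (b b' : T3 K c) :
    sm a (b + b') = sm a b + sm a b' := by
  funext m
  rw [sm_apply, Pi.add_apply, Pi.add_apply, mul_add, sm_apply, sm_apply]

theorem sm_smul (a : MvPolynomial (Fin 3) K) (r : K) (b : T3 K c) :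
    sm a (r • b) = r • sm a b := by
  funext m
  rw [sm_apply, Pi.smul_apply, Pi.smul_apply, mul_smul_comm, sm_apply]

theorem sm_zero (a : MvPolynomial (Fin 3) K) : sm a (0 : T3 K c) = 0 := by
  funext m
  rw [sm_apply, Pi.zero_apply, mul_zero]

/-- the tuples `q b`, `b m` of degree `e m` -/
noncomputable def mulC (q : MvPolynomial (Fin 3) K) (e : Fin c → ℕ) :
    Submodule K (T3 K c) where
  carrier := {g | ∃ b, HomC e b ∧ sm q b = g}
  add_mem' := by
    rintro _ _ ⟨b, hb, rfl⟩ ⟨b', hb', rfl⟩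
    exact ⟨b + b', fun m => (hb m).add (hb' m), sm_add q b b'⟩
  zero_mem' := ⟨0, fun m => isHomogeneous_zero _ _ _, sm_zero q⟩
  smul_mem' := by
    rintro a _ ⟨b, hb, rfl⟩
    exact ⟨a • b, fun m => (homogeneousSubmodule (Fin 3) K (e m)).smul_mem a (hb m),
      sm_smul q a b⟩

theorem mem_mulC {q : MvPolynomial (Fin 3) K} {e : Fin c → ℕ} {g : T3 K c} :
    g ∈ mulC q e ↔ ∃ b, HomC e b ∧ sm q b = g := Iff.rfl

theorem sm_mem {q : MvPolynomial (Fin 3) K} {e : Fin c → ℕ} {b : T3 K c} (hb : HomC e b) :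
    sm q b ∈ mulC q e := ⟨b, hb, rfl⟩

/-- the bracket of two tuples with restrictions `q A`, `q A'` -/
theorem bracket_q (h : PlC D x t P) {q : MvPolynomial (Fin 3) K} {e : Fin c → ℕ}
    (hq : mulC q e ≤ RC D x t P) {G H : Tup K n c} (hG : Hom d G) (hH : Hom d H)
    {A A' : T3 K c} (hA : HomC e A) (hA' : HomC e A')
    (gG : rs P G = sm q A) (gH : rs P H = sm q A') :
    sm (dco (DG D G) q) A' - sm (dco (DG D H) q) A ∈ RC D x t P := by
  have fG : Fix D x P G := (fix_iff h hG).2 (gG ▸ hq (sm_mem hA))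
  have fH : Fix D x P H := (fix_iff h hH).2 (gH ▸ hq (sm_mem hA'))
  have h1 := bracket h hG hH fG fH
  have h2 := hq (sm_mem (q := q) (dT_hom (DG D G) hA'))
  have h3 := hq (sm_mem (q := q) (dT_hom (DG D H) hA))
  have h4 := (RC D x t P).add_mem ((RC D x t P).sub_mem h1 h2) h3
  have h5 : sm (dco (DG D G) q) A' - sm (dco (DG D H) q) A =
      dT (DG D G) (rs P H) - dT (DG D H) (rs P G) - sm q (dT (DG D G) A') +
        sm q (dT (DG D H) A) := by
    rw [gG, gH]
    funext m
    simp only [Pi.sub_apply, Pi.add_apply, dT_apply, sm_apply, H75.dco_mul]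
    ring
  rw [h5]
  exact h4

/-- `zeta(G) = D_G q` for a tuple `G` with restriction in `RC` and a tuple `q A`:
`zeta(G) A - (D_(q A) g) in RC + q S`, here only for restriction zero -/
theorem zeta_mem (h : PlC D x t P) {q : MvPolynomial (Fin 3) K} {e : Fin c → ℕ}
    (he : ∀ m, 2 + e m = d m) (hq2 : q.IsHomogeneous 2)
    (hq : mulC q e ≤ RC D x t P) {G : Tup K n c} (hG : Hom d G) (hG0 : rs P G = 0) :
    mulC (dco (DG D G) q) e ≤ RC D x t P := by
  rintro _ ⟨A', hA', rfl⟩
  have hqA : HomC d (sm q A') := fun m => by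
    have := hq2.mul (hA' m)
    rw [he m] at this
    exact this
  have h2 := bracket_q h hq hG (lift_hom (t := t) hqA) (A := 0)
    (fun m => isHomogeneous_zero _ _ _) hA' (by rw [hG0, sm_zero]) (rs_lift h.Pt _)
  rwa [sm_zero, sub_zero] at h2

/-- `A ↦ D_(q A) q` -/
noncomputable def beta (D : DSys K n c d) (t : Fin 3 → Fin (n + 1))
    (q : MvPolynomial (Fin 3) K) : T3 K c →ₗ[K] MvPolynomial (Fin 3) K where
  toFun A := dco (DG D (lift t (sm q A))) q
  map_add' A B := by
    ext J
    rw [H75.coeff_dco, coeff_add, H75.coeff_dco, H75.coeff_dco, sm_add, lift_add, H75.DG_add]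
  map_smul' a A := by
    ext J
    rw [H75.coeff_dco, RingHom.id_apply, coeff_smul, H75.coeff_dco, sm_smul, lift_smul,
      H75.DG_smul, smul_eq_mul]

/-- the hypothesis of the product lemma -/
theorem beta_bracket (h : PlC D x t P) {q : MvPolynomial (Fin 3) K} {e : Fin c → ℕ}
    (he : ∀ m, 2 + e m = d m) (hq2 : q.IsHomogeneous 2)
    (hq : mulC q e ≤ RC D x t P) {A A' : T3 K c} (hA : HomC e A) (hA' : HomC e A') :
    sm (beta D t q A) A' - sm (beta D t q A') A ∈ RC D x t P := by
  have hqA : ∀ {A : T3 K c}, HomC e A → HomC d (sm q A) := fun {A} hA m => by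
    have := hq2.mul (hA m)
    rw [he m] at this
    exact this
  exact bracket_q h hq (lift_hom (t := t) (hqA hA)) (lift_hom (t := t) (hqA hA')) hA hA'
    (rs_lift h.Pt _) (rs_lift h.Pt _)

/-- the conic is not moved (from the two algebraic facts) -/
theorem qint_of (h : PlC D x t P) {q : MvPolynomial (Fin 3) K} {e : Fin c → ℕ}
    (he : ∀ m, 2 + e m = d m) (hq2 : q.IsHomogeneous 2)
    (hq : mulC q e ≤ RC D x t P)
    (h1 : ∀ q' : MvPolynomial (Fin 3) K, q'.IsHomogeneous 2 → mulC q' e ≤ RC D x t P →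
      ∃ a, q' = C a * q)
    (h2 : ∀ A, HomC e A → ∃ a, beta D t q A = C a * q)
    {G : Tup K n c} (hG : Hom d G) (hGq : rs P G ∈ mulC q e) :
    ∃ a, dco (DG D G) q = C a * q := by
  obtain ⟨A, hA, hAG⟩ := hGq
  have hqA : HomC d (sm q A) := fun m => by
    have := hq2.mul (hA m)
    rw [he m] at this
    exact this
  have hr : Hom d (lift t (sm q A)) := lift_hom hqA
  have hG0 : rs P (G - lift t (sm q A)) = 0 := by
    rw [rs_sub, rs_lift h.Pt, ← hAG, sub_self]
  obtain ⟨a1, ha1⟩ := h1 _ (H75.dco_hom _ hq2) (zeta_mem h he hq2 hq (Hom.sub' hG hr) hG0)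
  obtain ⟨a2, ha2⟩ := h2 A hA
  refine ⟨a1 + a2, ?_⟩
  have h3 : dco (DG D G) q = dco (DG D (G - lift t (sm q A))) q +
      dco (DG D (lift t (sm q A))) q := by
    ext J
    rw [coeff_add, H75.coeff_dco, H75.coeff_dco, H75.coeff_dco, ← H75.DG_add, sub_add_cancel]
  rw [h3, ha1, map_add, add_mul]
  congr 1

end basics

end Pool.Agent.T2C.H8
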